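import Mathlib

/-!
# The points of a curve `t ↦ f(σ + it)` on a line through the origin
-/

open MeasureTheory Set

namespace Pool.Agent.H779.LG

/-- the ordinates `t` with `|t - T| ≤ r` for which `f(σ + it)` lies on the real line spanned
by `u` -/
def onLine (f : ℂ → ℂ) (u : ℂ) (σ T r : ℝ) : Set ℝ :=
  {t | |t - T| ≤ r ∧ ∃ x : ℝ, f (σ + t * Complex.I) = x * u}

/-- the number of points on the line that meets the curve least often -/
noncomputable def fewest (f : ℂ → ℂ) (σ T r : ℝ) : ENNReal :=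
  ⨅ u : {u : ℂ // ‖u‖ = 1}, ((onLine f u σ T r).encard : ENNReal)

lemma onLine_mono (f : ℂ → ℂ) (u : ℂ) (σ : ℝ) {T r T' r' : ℝ} (h : |T - T'| + r ≤ r') :
    onLine f u σ T r ⊆ onLine f u σ T' r' := by
  rintro t ⟨h1, h2⟩
  refine ⟨?_, h2⟩
  have h3 : |t - T'| ≤ |t - T| + |T - T'| := abs_sub_le _ _ _
  linarith

lemma fewest_mono (f : ℂ → ℂ) (σ : ℝ) {T r T' r' : ℝ} (h : |T - T'| + r ≤ r') :
    fewest f σ T r ≤ fewest f σ T' r' :=
  iInf_mono fun u => by
    have := Set.encard_le_encard (onLine_mono f u σ h)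
    exact_mod_cast this

end Pool.Agent.H779.LG
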