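import Mathlib
import Pool.Agent.H779.LG.Def
import Pool.Agent.H779.LX.Card

/-!
# Counting the points on a well chosen line
-/

open MeasureTheory Set Filter Topology Metric
open Pool.Agent.H779.LX (vp vp_re vp_im encard_le_of jensen_card arc_small)

namespace Pool.Agent.H779.LG

/-- the dual function -/
noncomputable def dl (f : ℂ → ℂ) (s : ℂ) : ℂ := (starRingEnd ℂ) (f ((starRingEnd ℂ) s))

lemma dl_diff {f : ℂ → ℂ} (hf : Differentiable ℂ f) : Differentiable ℂ (dl f) := by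
  intro z
  have h := (hf ((starRingEnd ℂ) z)).conj_conj
  rw [Complex.conj_conj] at h
  exact h

/-- the function whose real zeros are the points on a line -/
noncomputable def FF (f : ℂ → ℂ) (u : ℂ) (σ T : ℝ) (z : ℂ) : ℂ :=
  (starRingEnd ℂ) u * f (σ + Complex.I * (T + z)) - u * dl f (σ - Complex.I * (T + z))

lemma FF_diff {f : ℂ → ℂ} (hf : Differentiable ℂ f) (u : ℂ) (σ T : ℝ) :
    Differentiable ℂ (FF f u σ T) := by
  unfold FF
  have h1 : Differentiable ℂ fun z : ℂ => f (σ + Complex.I * (T + z)) :=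
    hf.comp (by fun_prop)
  have h2 : Differentiable ℂ fun z : ℂ => dl f (σ - Complex.I * (T + z)) :=
    (dl_diff hf).comp (by fun_prop)
  exact (h1.const_mul _).sub (h2.const_mul _)

lemma FF_zero {f : ℂ → ℂ} {u : ℂ} {σ T x : ℝ}
    (h : ∃ y : ℝ, f (σ + ((T + x : ℝ) : ℂ) * Complex.I) = y * u) :
    FF f u σ T x = 0 := by
  obtain ⟨y, hy⟩ := h
  unfold FF dl
  have e1 : (σ + Complex.I * (T + x) : ℂ) = σ + ((T + x : ℝ) : ℂ) * Complex.I := by
    push_cast; ring
  have e2 : (starRingEnd ℂ) (σ - Complex.I * (T + x) : ℂ) = σ + ((T + x : ℝ) : ℂ) * Complex.I := by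
    simp only [map_sub, map_add, map_mul, Complex.conj_ofReal, Complex.conj_I]
    push_cast; ring
  rw [e1, e2, hy, map_mul, Complex.conj_ofReal]
  ring

/-- the two values in `FF` -/
lemma FF_le {f : ℂ → ℂ} {u : ℂ} (hu : ‖u‖ = 1) {σ T : ℝ} {z : ℂ} {a b : ℝ}
    (h1 : ‖f (vp (σ - z.im) (T + z.re))‖ ≤ a)
    (h2 : ‖f (vp (σ + z.im) (T + z.re))‖ ≤ b) : ‖FF f u σ T z‖ ≤ a + b := by
  have e1 : (σ + Complex.I * (T + z) : ℂ) = vp (σ - z.im) (T + z.re) := by
    apply Complex.ext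
    · rw [vp_re]; simp; try ring
    · rw [vp_im]; simp
  have e2 : (starRingEnd ℂ) (σ - Complex.I * (T + z) : ℂ) = vp (σ + z.im) (T + z.re) := by
    apply Complex.ext
    · rw [Complex.conj_re, vp_re]; simp
    · rw [Complex.conj_im, vp_im]; simp; try ring
  unfold FF dl
  rw [e1, e2]
  refine (norm_sub_le _ _).trans ?_
  rw [norm_mul, norm_mul, Complex.norm_conj, Complex.norm_conj, hu, one_mul, one_mul]
  exact add_le_add h1 h2

/-- counting the points on a line by the zeros of `FF` -/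
lemma onLine_card {f : ℂ → ℂ} {u : ℂ} {σ T r B : ℝ}
    (h : ∀ F : Finset ℂ, (∀ z ∈ F, z.im = 0 ∧ |z.re| ≤ r ∧ FF f u σ T z = 0) → (F.card : ℝ) ≤ B) :
    (((onLine f u σ T r).encard : ENNReal)) ≤ ENNReal.ofReal B := by
  classical
  refine encard_le_of fun F hF => ?_
  have hinj : Function.Injective (fun t : ℝ => (((t - T : ℝ)) : ℂ)) := fun a b hab => by
    have : (a - T : ℝ) = b - T := Complex.ofReal_injective hab
    linarith
  have h1 := h (F.image fun t : ℝ => (((t - T : ℝ)) : ℂ)) (fun z hz => by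
    obtain ⟨t, ht, rfl⟩ := Finset.mem_image.1 hz
    obtain ⟨h2, h3⟩ := hF ht
    refine ⟨Complex.ofReal_im _, by rw [Complex.ofReal_re]; exact h2, ?_⟩
    refine FF_zero ?_
    rw [add_sub_cancel]
    exact h3)
  rwa [Finset.card_image_of_injective F hinj] at h1

/-- one line which is good for finitely many pairs of values -/
theorem exists_dir (K : ℕ) : ∃ δ : ℝ, 0 < δ ∧ δ ≤ 1 ∧ ∀ A B : ℕ → ℂ, ∃ u : ℂ, ‖u‖ = 1 ∧
    ∀ k < K, δ * ‖A k‖ ≤ ‖(starRingEnd ℂ) u * A k - u * B k‖ := by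
  classical
  rcases Nat.eq_zero_or_pos K with rfl | hK
  · exact ⟨1, one_pos, le_rfl, fun A B => ⟨1, norm_one, fun k hk => absurd hk (by omega)⟩⟩
  set w : Fin (K + 1) → ℂ := fun j => Complex.exp (((j : ℝ) / (K + 1) : ℝ) * Complex.I) with hw
  have hK1 : (0 : ℝ) < (K : ℝ) + 1 := by positivity
  have hnw : ∀ j, ‖w j‖ = 1 := fun j => by
    rw [hw]; exact Complex.norm_exp_ofReal_mul_I _
  have hsq : ∀ j l, j ≠ l → w j ^ 2 ≠ w l ^ 2 := by
    intro j l hjl h
    apply hjl
    have e : ∀ j : Fin (K + 1), w j ^ 2 = Complex.exp ((2 * ((j : ℝ) / (K + 1)) : ℝ) * Complex.I) :=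
      fun j => by
        rw [hw, ← Complex.exp_nat_mul]
        congr 1
        push_cast
        ring
    rw [e, e] at h
    have hr : ∀ j : Fin (K + 1), 2 * ((j : ℝ) / (K + 1)) ∈ Ioc (-Real.pi) Real.pi := fun j => by
      have h1 : (j : ℝ) < K + 1 := by exact_mod_cast j.2
      have h2 : (j : ℝ) / (K + 1) ≤ 1 := by
        rw [div_le_one hK1]; exact h1.le
      have h3 : 0 ≤ (j : ℝ) / (K + 1) := by positivity
      have := Real.pi_gt_three
      constructor <;> linarith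
    have h4 := congrArg Complex.arg h
    rw [Complex.arg_exp_mul_I, Complex.arg_exp_mul_I] at h4
    have h5 : ∀ j : Fin (K + 1), toIocMod Real.two_pi_pos (-Real.pi) (2 * ((j : ℝ) / (K + 1))) =
        2 * ((j : ℝ) / (K + 1)) := fun j => by
      rw [toIocMod_eq_self]
      have := hr j
      refine ⟨this.1, ?_⟩
      have e2 : -Real.pi + 2 * Real.pi = Real.pi := by ring
      rw [e2]
      exact this.2
    rw [h5, h5] at h4
    have h6 : (j : ℝ) = l := by
      field_simp at h4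
      exact h4
    exact Fin.ext (by exact_mod_cast h6)
  -- the least distance
  set S : Finset (Fin (K + 1) × Fin (K + 1)) := Finset.univ.filter fun p => p.1 ≠ p.2 with hS
  have hSne : S.Nonempty := ⟨(⟨0, by omega⟩, ⟨1, by omega⟩), by
    rw [hS, Finset.mem_filter]
    refine ⟨Finset.mem_univ _, ?_⟩
    simp [Fin.ext_iff]⟩
  obtain ⟨p, hp, hmin⟩ := S.exists_min_image (fun p => ‖w p.1 ^ 2 - w p.2 ^ 2‖) hSne
  set d : ℝ := ‖w p.1 ^ 2 - w p.2 ^ 2‖ with hd
  have hp' : p.1 ≠ p.2 := (Finset.mem_filter.1 hp).2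
  have hd0 : 0 < d := norm_pos_iff.2 (sub_ne_zero.2 (hsq _ _ hp'))
  have hd2 : d ≤ 2 := by
    rw [hd]
    refine (norm_sub_le _ _).trans ?_
    rw [norm_pow, norm_pow, hnw, hnw]
    norm_num
  refine ⟨d / 4, by positivity, by linarith, fun A B => ?_⟩
  by_contra hcon
  push Not at hcon
  have hbad : ∀ j : Fin (K + 1), ∃ k : Fin K,
      ‖(starRingEnd ℂ) (w j) * A k - w j * B k‖ < d / 4 * ‖A k‖ := fun j => by
    obtain ⟨k, hk, h⟩ := hcon (w j) (hnw j)
    exact ⟨⟨k, hk⟩, h⟩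
  choose κ hκ using hbad
  obtain ⟨j, l, hjl, hkl⟩ := Fintype.exists_ne_map_eq_of_card_lt κ (by simp)
  have key : ∀ j, ‖A (κ j) - w j ^ 2 * B (κ j)‖ < d / 4 * ‖A (κ j)‖ := fun j => by
    have h8 : w j * (starRingEnd ℂ) (w j) = 1 := by
      rw [Complex.mul_conj, Complex.normSq_eq_norm_sq, hnw]
      simp
    have e : A (κ j) - w j ^ 2 * B (κ j) =
        w j * ((starRingEnd ℂ) (w j) * A (κ j) - w j * B (κ j)) := by
      linear_combination (-(A (κ j))) * h8
    rw [e, norm_mul, hnw, one_mul]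
    exact hκ j
  have k1 := key j
  have k2 := key l
  rw [← hkl] at k2
  set a := A (κ j)
  set b := B (κ j)
  have hdm : d ≤ ‖w j ^ 2 - w l ^ 2‖ := hmin (j, l) (by
    rw [hS, Finset.mem_filter]
    exact ⟨Finset.mem_univ _, hjl⟩)
  have e1 : (w j ^ 2 - w l ^ 2) * b = (a - w l ^ 2 * b) - (a - w j ^ 2 * b) := by ring
  have e2 : ‖w j ^ 2 - w l ^ 2‖ * ‖b‖ < d / 4 * ‖a‖ + d / 4 * ‖a‖ := by
    rw [← norm_mul, e1]
    exact (norm_sub_le _ _).trans_lt (add_lt_add k2 k1)
  have e3 : ‖a‖ - ‖b‖ ≤ ‖a - w j ^ 2 * b‖ := by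
    have := norm_sub_norm_le a (w j ^ 2 * b)
    rwa [norm_mul, norm_pow, hnw, one_pow, one_mul] at this
  have ha0 : 0 < ‖a‖ := by
    by_contra h0
    have : ‖a‖ = 0 := le_antisymm (not_lt.1 h0) (norm_nonneg _)
    rw [this, mul_zero] at k1
    linarith [norm_nonneg (a - w j ^ 2 * b)]
  have e4 : ‖a‖ / 2 ≤ ‖b‖ := by nlinarith
  have e5 : d * (‖a‖ / 2) ≤ ‖w j ^ 2 - w l ^ 2‖ * ‖b‖ :=
    mul_le_mul hdm e4 (by positivity) (norm_nonneg _)
  linarith

/-- a point where `f` is not too small -/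
lemma pt (ρ : ℝ) (hρ : 0 < ρ) (hρ1 : ρ ≤ 1) : ∃ C : ℝ, 1 ≤ C ∧ ∀ (f : ℂ → ℂ), Differentiable ℂ f →
    ∀ σ T a : ℝ, 0 < a → 1 / 2 ≤ σ → σ ≤ 2 →
    (∀ w : ℂ, σ ≤ w.re → |w.im - T| ≤ 3 → ‖f w‖ ≤ Real.exp a) →
    Real.exp (-a) ≤ ‖f (vp 3 T)‖ →
    ∃ s : ℂ, ‖s - vp σ T‖ ≤ ρ ∧ Real.exp (-(C * a)) ≤ ‖f s‖ := by
  have hpi := Real.pi_pos
  have hpi3 := Real.pi_gt_three
  set θ : ℝ := ρ / 3 with hθ
  have hθ0 : 0 < θ := by rw [hθ]; positivity
  have hθpi : θ ≤ Real.pi := by rw [hθ]; linarith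
  refine ⟨2 * Real.pi / θ + 1, by
    have : 0 < 2 * Real.pi / θ := by positivity
    linarith, fun f hf σ T a ha hσ hσ2 hb hlow => ?_⟩
  by_contra hcon
  push Not at hcon
  set C : ℝ := 2 * Real.pi / θ + 1 with hC
  have hR0 : 0 < 3 - σ := by linarith
  have h := arc_small (f := f) (c := vp 3 T) (R := 3 - σ) (a := a) (b := C * a) (θ := θ) hR0
    (fun z _ => hf.analyticAt z) (by
      have : 0 ≤ C := by rw [hC]; positivity
      nlinarith) hθ0.le hθpi (fun z hz => by
        rw [mem_sphere, dist_eq_norm] at hz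
        have e1 := abs_le.1 ((Complex.abs_re_le_norm (z - vp 3 T)).trans hz.le)
        have e2 := (Complex.abs_im_le_norm (z - vp 3 T)).trans hz.le
        rw [Complex.sub_re, vp_re] at e1
        rw [Complex.sub_im, vp_im] at e2
        exact hb z (by linarith [e1.1]) (by linarith)) (fun φ hφ => by
        have e1 : circleMap (vp 3 T) (3 - σ) Real.pi = vp σ T := by
          rw [circleMap, Complex.exp_pi_mul_I]
          unfold vp
          push_cast
          ring
        have e2 : ‖circleMap (vp 3 T) (3 - σ) φ - vp σ T‖ ≤ ρ := by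
          rw [← e1, ← dist_eq_norm]
          refine ((lipschitzWith_circleMap (vp 3 T) (3 - σ)).dist_le_mul φ Real.pi).trans ?_
          rw [Real.dist_eq, Real.coe_nnabs, abs_of_pos hR0]
          calc (3 - σ) * |φ - Real.pi| ≤ 3 * θ := by
                apply mul_le_mul (by linarith) hφ (abs_nonneg _) (by norm_num)
            _ = ρ := by rw [hθ]; ring
        exact (hcon _ e2).le)
  have h1 := hlow.trans h
  rw [Real.exp_le_exp] at h1
  have h2 : θ / Real.pi * (a + C * a) = 2 * a + 2 * (θ / Real.pi) * a := by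
    rw [hC]
    field_simp
    ring
  rw [h2] at h1
  have h3 : 0 < 2 * (θ / Real.pi) * a := by positivity
  linarith

lemma encard_biUnion_range {α : Type*} (S : ℕ → Set α) (K : ℕ) :
    (⋃ k ∈ Finset.range K, S k).encard ≤ ∑ k ∈ Finset.range K, (S k).encard := by
  induction K with
  | zero => simp
  | succ K ih =>
    rw [Finset.range_add_one, Finset.set_biUnion_insert, Finset.sum_insert Finset.notMem_range_self]
    exact (Set.encard_union_le _ _).trans (add_le_add_right ih _)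

lemma cover (f : ℂ → ℂ) (u : ℂ) (σ T : ℝ) {K : ℕ} (hK : 0 < K) :
    ((onLine f u σ T 1).encard : ENNReal) ≤ ∑ k ∈ Finset.range K,
      ((onLine f u σ (T + (-1 + (2 * (k : ℝ) + 1) / K)) (1 / K)).encard : ENNReal) := by
  have hK' : (0 : ℝ) < K := by exact_mod_cast hK
  have h1 : onLine f u σ T 1 ⊆
      ⋃ k ∈ Finset.range K, onLine f u σ (T + (-1 + (2 * (k : ℝ) + 1) / K)) (1 / K) := by
    rintro t ⟨ht, hx⟩
    have ht' := abs_le.1 ht
    set y : ℝ := (t - T + 1) * K / 2 with hy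
    have hy0 : 0 ≤ y := by
      have : 0 ≤ t - T + 1 := by linarith
      positivity
    have hyK : y ≤ K := by
      rw [hy]
      nlinarith
    rcases hyK.eq_or_lt with h | h
    · -- the right end
      refine mem_biUnion (show K - 1 ∈ Finset.range K from Finset.mem_range.2 (by omega)) ⟨?_, hx⟩
      have e1 : ((K - 1 : ℕ) : ℝ) = K - 1 := by
        rw [Nat.cast_sub (by omega)]; simp
      have e2 : t - T = 1 := by
        have : (t - T + 1) * K = 2 * K := by linarith
        have := mul_right_cancel₀ hK'.ne' this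
        linarith
      have e3 : t - (T + (-1 + (2 * ((K - 1 : ℕ) : ℝ) + 1) / K)) = 1 / K := by
        rw [e1]
        field_simp
        rw [show t = T + 1 by linarith]
        ring
      rw [e3, abs_of_pos (by positivity)]
    · have hk : ⌊y⌋₊ < K := (Nat.floor_lt hy0).2 h
      refine mem_biUnion (show ⌊y⌋₊ ∈ Finset.range K from Finset.mem_range.2 hk) ⟨?_, hx⟩
      have h2 := Nat.floor_le hy0
      have h3 := Nat.lt_floor_add_one y
      have e3 : t - (T + (-1 + (2 * (⌊y⌋₊ : ℝ) + 1) / K)) = (2 * (y - ⌊y⌋₊) - 1) / K := by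
        rw [hy]
        field_simp
        ring
      rw [e3, abs_div, abs_of_pos hK']
      refine div_le_div_of_nonneg_right ?_ hK'.le
      rw [abs_le]
      constructor <;> linarith
  have h2 := (Set.encard_le_encard h1).trans (encard_biUnion_range _ K)
  have h3 : ((onLine f u σ T 1).encard : ENNReal) ≤
      ((∑ k ∈ Finset.range K,
        (onLine f u σ (T + (-1 + (2 * (k : ℝ) + 1) / K)) (1 / K)).encard : ℕ∞) : ENNReal) := by
    exact_mod_cast h2
  refine h3.trans (le_of_eq ?_)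
  exact map_sum ENat.toENNRealRingHom _ _

/-- the piece centres are within 1 of `T` -/
lemma centre_near {K k : ℕ} (hk : k < K) (T : ℝ) :
    |T + (-1 + (2 * (k : ℝ) + 1) / K) - T| ≤ 1 := by
  have hK : (0 : ℝ) < K := by exact_mod_cast (by omega : 0 < K)
  have hk' : (k : ℝ) + 1 ≤ K := by exact_mod_cast hk
  have h1 : 0 ≤ (2 * (k : ℝ) + 1) / K := by positivity
  have h2 : (2 * (k : ℝ) + 1) / K ≤ 2 := by
    rw [div_le_iff₀ hK]; linarith
  rw [abs_le]
  constructor <;> linarith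

/-- **few points on the best line** -/
theorem count (ρ : ℝ) (hρ : 0 < ρ) (hρ1 : ρ ≤ 1) : ∃ C : ℝ, 0 < C ∧ ∀ (f : ℂ → ℂ),
    Differentiable ℂ f → ∀ σ T a : ℝ, 1 ≤ a → 1 / 2 ≤ σ → σ ≤ 2 →
    (∀ w : ℂ, σ - ρ ≤ w.re → |w.im - T| ≤ 5 → ‖f w‖ ≤ Real.exp a) →
    (∀ t : ℝ, |t - T| ≤ 1 → Real.exp (-a) ≤ ‖f (vp 3 t)‖) →
    fewest f σ T 1 ≤ ENNReal.ofReal (C * a) := by
  set K : ℕ := ⌈8 / ρ⌉₊ with hKdef
  have hK8 : 8 / ρ ≤ K := Nat.le_ceil _
  have hK0 : (0 : ℝ) < K := lt_of_lt_of_le (by positivity) hK8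
  have hK : 0 < K := by exact_mod_cast hK0
  have hKρ : 1 / (K : ℝ) ≤ ρ / 8 := by
    rw [div_le_iff₀ hK0]
    rw [div_le_iff₀ hρ] at hK8
    linarith
  obtain ⟨Cj, hCj, hj⟩ := jensen_card (ρ / 2) (ρ / 4) (by positivity) (by linarith)
  obtain ⟨C1, hC1, hpt⟩ := pt (ρ / 8) (by positivity) (by linarith)
  obtain ⟨δ, hδ, hδ1, hdir⟩ := exists_dir K
  set C2 : ℝ := C1 + -Real.log δ + 2 with hC2
  have hlδ : 0 ≤ -Real.log δ := by
    have := Real.log_nonpos hδ.le hδ1
    linarith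
  have hC2' : 0 < C2 := by rw [hC2]; linarith
  refine ⟨K * (Cj * C2), by positivity, fun f hf σ T a ha hσ hσ2 hb hlow => ?_⟩
  set x : ℕ → ℝ := fun k => T + (-1 + (2 * (k : ℝ) + 1) / K) with hx
  have hxn : ∀ k < K, |x k - T| ≤ 1 := fun k hk => centre_near hk T
  have hs : ∀ k, ∃ s : ℂ, k < K → ‖s - vp σ (x k)‖ ≤ ρ / 8 ∧ Real.exp (-(C1 * a)) ≤ ‖f s‖ := by
    intro k
    by_cases hk : k < K
    · have h0 := abs_le.1 (hxn k hk)
      obtain ⟨s, h1, h2⟩ := hpt f hf σ (x k) a (by linarith) hσ hσ2 (fun w h1 h2 => hb w (by linarith) (by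
        have h3 := abs_le.1 h2
        rw [abs_le]; constructor <;> linarith)) (hlow _ (hxn k hk))
      exact ⟨s, fun _ => ⟨h1, h2⟩⟩
    · exact ⟨0, fun h => absurd h hk⟩
  choose s hs using hs
  obtain ⟨u, hu, hdiru⟩ := hdir (fun k => f (s k)) (fun k => dl f (2 * σ - s k))
  have hpiece : ∀ k ∈ Finset.range K, ((onLine f u σ (x k) (1 / K)).encard : ENNReal) ≤
      ENNReal.ofReal (Cj * C2 * a) := by
    intro k hk'
    have hk := Finset.mem_range.1 hk'
    have h0 := abs_le.1 (hxn k hk)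
    obtain ⟨hs1, hs2⟩ := hs k hk
    set c : ℂ := -Complex.I * (s k - vp σ (x k)) with hc
    have hcn : ‖c‖ ≤ ρ / 8 := by
      rw [hc, norm_mul, norm_neg, Complex.norm_I, one_mul]
      exact hs1
    have e1 : (σ + Complex.I * (x k + c) : ℂ) = s k := by
      rw [hc]
      unfold vp
      linear_combination (-(s k : ℂ) + σ + x k * Complex.I) * Complex.I_mul_I
    have e2 : (σ - Complex.I * (x k + c) : ℂ) = 2 * σ - s k := by
      rw [hc]
      unfold vp
      linear_combination ((s k : ℂ) - σ - x k * Complex.I) * Complex.I_mul_I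
    have hFc : FF f u σ (x k) c = (starRingEnd ℂ) u * f (s k) - u * dl f (2 * σ - s k) := by
      unfold FF
      rw [e1, e2]
    have hlowc : Real.exp (-(C2 * a)) ≤ ‖FF f u σ (x k) c‖ := by
      rw [hFc]
      refine le_trans ?_ (hdiru k hk)
      calc Real.exp (-(C2 * a)) ≤ Real.exp (Real.log δ + -(C1 * a)) := by
            refine Real.exp_le_exp.2 ?_
            rw [hC2]
            nlinarith
        _ = δ * Real.exp (-(C1 * a)) := by rw [Real.exp_add, Real.exp_log hδ]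
        _ ≤ δ * ‖f (s k)‖ := mul_le_mul_of_nonneg_left hs2 hδ.le
    have hin : ∀ z ∈ closedBall c (ρ / 2), ‖z‖ ≤ ρ := by
      intro z hz
      rw [mem_closedBall, dist_eq_norm] at hz
      calc ‖z‖ = ‖(z - c) + c‖ := by ring_nf
        _ ≤ ‖z - c‖ + ‖c‖ := norm_add_le _ _
        _ ≤ ρ := by linarith
    have hup : ∀ z ∈ closedBall c (ρ / 2), ‖FF f u σ (x k) z‖ ≤ Real.exp (C2 * a) := by
      intro z hz
      have e0 := hin z hz
      have e1 := abs_le.1 ((Complex.abs_re_le_norm z).trans e0)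
      have e2 := abs_le.1 ((Complex.abs_im_le_norm z).trans e0)
      have k1 := hb (vp (σ - z.im) (x k + z.re)) (by rw [vp_re]; linarith [e2.2])
        (by rw [vp_im, abs_le]; constructor <;> linarith [e1.1, e1.2])
      have k2 := hb (vp (σ + z.im) (x k + z.re)) (by rw [vp_re]; linarith [e2.1])
        (by rw [vp_im, abs_le]; constructor <;> linarith [e1.1, e1.2])
      refine (FF_le hu k1 k2).trans ?_
      have k3 : (2 : ℝ) ≤ Real.exp a := by
        have := Real.add_one_le_exp a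
        linarith
      calc Real.exp a + Real.exp a ≤ Real.exp a * Real.exp a := by
            nlinarith [Real.exp_pos a]
        _ = Real.exp (2 * a) := by rw [← Real.exp_add]; ring_nf
        _ ≤ Real.exp (C2 * a) := by
            refine Real.exp_le_exp.2 ?_
            rw [hC2]
            nlinarith
    refine onLine_card fun F hF => ?_
    have hfin := hj (FF f u σ (x k)) c (C2 * a) (by positivity)
      (fun z _ => (FF_diff hf u σ (x k)).analyticAt z) hup hlowc F (fun z hz => by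
        obtain ⟨g1, g2, g3⟩ := hF z hz
        refine ⟨?_, g3⟩
        rw [mem_closedBall, dist_eq_norm]
        have e3 : ‖z‖ ≤ ρ / 8 := by
          have : z = (z.re : ℂ) := by apply Complex.ext <;> simp [g1]
          rw [this, Complex.norm_real]
          exact g2.trans hKρ
        calc ‖z - c‖ ≤ ‖z‖ + ‖c‖ := norm_sub_le _ _
          _ ≤ ρ / 4 := by linarith)
    linarith
  have hne : fewest f σ T 1 ≤ ((onLine f u σ T 1).encard : ENNReal) :=
    iInf_le (fun u : {u : ℂ // ‖u‖ = 1} => ((onLine f u σ T 1).encard : ENNReal)) ⟨u, hu⟩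
  refine hne.trans ((cover f u σ T hK).trans ((Finset.sum_le_sum hpiece).trans ?_))
  rw [Finset.sum_const, Finset.card_range, nsmul_eq_mul]
  refine le_of_eq ?_
  rw [show (K : ℝ) * (Cj * C2) * a = K * (Cj * C2 * a) by ring,
    ENNReal.ofReal_mul (p := (K : ℝ)) (by positivity), ENNReal.ofReal_natCast]

end Pool.Agent.H779.LG
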