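import Mathlib
import Pool.Agent.H779.LG.Def
import Pool.Agent.H779.LX.Arg
import Pool.Agent.H779.LX.Rect
import Pool.Agent.H779.LX.Sub

/-!
# One vertical segment, and the discs by vertical slices
-/

open MeasureTheory Set Filter Topology Metric
open Pool.Agent.H779.LX (vp vp_re vp_im arg_bound)

namespace Pool.Agent.H779.LG

/-- one vertical segment -/
lemma seg_bound {f : ℂ → ℂ} (hf : Differentiable ℂ f) {s T r : ℝ} (hr : 0 ≤ r)
    (hz : ∀ t ∈ Icc (T - r) (T + r), f (vp s t) ≠ 0) :
    ENNReal.ofReal |∫ t in (T - r)..(T + r), (deriv f (vp s t) / f (vp s t)).re| ≤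
      ENNReal.ofReal Real.pi * (fewest f s T r + 1) := by
  set J := ∫ t in (T - r)..(T + r), (deriv f (vp s t) / f (vp s t)).re with hJ
  have hfa : ∀ z, AnalyticAt ℂ f z := fun z => hf.analyticAt z
  have key : ∀ u : {u : ℂ // ‖u‖ = 1}, ENNReal.ofReal |J| ≤
      ENNReal.ofReal Real.pi * (((onLine f u s T r).encard : ENNReal) + 1) := by
    rintro ⟨u, hu⟩
    by_cases htop : (onLine f u s T r).encard = ⊤
    · rw [htop]
      simp [ENNReal.mul_top, Real.pi_pos]
    · obtain ⟨n, hn⟩ := ENat.ne_top_iff_exists.1 htop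
      have hu0 : (starRingEnd ℂ) u ≠ 0 := by
        intro h
        have h0 : u = 0 := by simpa using h
        rw [h0, norm_zero] at hu
        norm_num at hu
      have h1 := arg_bound (w := fun t : ℝ => (starRingEnd ℂ) u * f (vp s t))
        (w' := fun t : ℝ => (starRingEnd ℂ) u * (deriv f (vp s t) * Complex.I)) n
        (a := T - r) (b := T + r) (by linarith) (fun t ht => ?_) ?_ (fun t ht => ?_) ?_
      · have h2 : (fun t : ℝ => ((starRingEnd ℂ) u * (deriv f (vp s t) * Complex.I) /
            ((starRingEnd ℂ) u * f (vp s t))).im) =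
            fun t : ℝ => (deriv f (vp s t) / f (vp s t)).re := by
          funext t
          rw [mul_div_mul_left _ _ hu0, mul_div_right_comm]
          simp
        rw [h2] at h1
        rw [← hn]
        have h3 : ENNReal.ofReal |J| ≤ ENNReal.ofReal (Real.pi * (n + 1)) :=
          ENNReal.ofReal_le_ofReal h1
        refine h3.trans (le_of_eq ?_)
        rw [ENNReal.ofReal_mul Real.pi_pos.le, ENNReal.ofReal_add (by positivity) zero_le_one,
          ENNReal.ofReal_natCast, ENNReal.ofReal_one]
        simp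
      · have hd : HasDerivAt (fun t : ℝ => vp s t) Complex.I t := by
          have h4 : HasDerivAt (fun t : ℝ => (t : ℂ)) 1 t := Complex.ofRealCLM.hasDerivAt
          have := (h4.mul_const Complex.I).const_add (s : ℂ)
          simpa [vp] using this
        have h5 : HasDerivAt f (deriv f (vp s t)) (vp s t) := (hf _).hasDerivAt
        exact (h5.comp t hd).const_mul _
      · intro t ht
        have hd : ContinuousAt (fun t : ℝ => vp s t) t := by
          unfold vp
          fun_prop
        have h5 : ContinuousAt (deriv f) (vp s t) := (hfa _).deriv.continuousAt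
        have h6 : ContinuousAt (fun t : ℝ => deriv f (vp s t)) t :=
          h5.comp (f := fun t : ℝ => vp s t) hd
        exact ((h6.mul continuousAt_const).const_mul _).continuousWithinAt
      · exact mul_ne_zero hu0 (hz t ht)
      · rw [hn]
        refine Set.encard_le_encard ?_
        rintro t ⟨ht, ht0⟩
        refine ⟨?_, ((starRingEnd ℂ) u * f (vp s t)).re, ?_⟩
        · rw [abs_le]; constructor <;> linarith [ht.1, ht.2]
        · have h7 : (starRingEnd ℂ) u * f (vp s t) =
              (((starRingEnd ℂ) u * f (vp s t)).re : ℂ) := by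
            apply Complex.ext
            · simp
            · rw [Complex.ofReal_im]; exact ht0
          have h8 : u * (starRingEnd ℂ) u = 1 := by
            rw [Complex.mul_conj, Complex.normSq_eq_norm_sq, hu]
            simp
          have h9 : f (vp s t) = (starRingEnd ℂ) u * f (vp s t) * u := by
            linear_combination (-(f (vp s t))) * h8
          rw [← h7]
          exact h9
  unfold fewest
  have hne : Nonempty {u : ℂ // ‖u‖ = 1} := ⟨⟨1, norm_one⟩⟩
  rw [ENNReal.iInf_add, ENNReal.mul_iInf_of_ne (by simp [Real.pi_pos]) ENNReal.ofReal_ne_top]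
  exact le_iInf key

/-- the discs by vertical slices -/
lemma ball_slices {c : ℂ} {r : ℝ} {F : ℂ → ENNReal} (hF : Measurable F) :
    ∫⁻ z in ball c r, F z = ∫⁻ s in Ioo (c.re - r) (c.re + r),
      ∫⁻ t in Ioo (c.im - √(r ^ 2 - (s - c.re) ^ 2)) (c.im + √(r ^ 2 - (s - c.re) ^ 2)),
        F (vp s t) := by
  rw [← lintegral_indicator measurableSet_ball,
    ← (Complex.volume_preserving_equiv_real_prod.symm).lintegral_comp_emb
      Complex.measurableEquivRealProd.symm.measurableEmbedding, Measure.volume_eq_prod,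
    lintegral_prod]
  · rw [← lintegral_indicator measurableSet_Ioo]
    refine lintegral_congr fun s => ?_
    have hpt : ∀ t : ℝ, Complex.measurableEquivRealProd.symm (s, t) = vp s t := fun t => by
      apply Complex.ext
      · rw [vp_re]; rfl
      · rw [vp_im]; rfl
    have hmem : ∀ t : ℝ, vp s t ∈ ball c r ↔ (s - c.re) ^ 2 + (t - c.im) ^ 2 < r ^ 2 ∧ 0 < r :=
      fun t => by
        rw [mem_ball, dist_eq_norm]
        have h1 : ‖vp s t - c‖ ^ 2 = (s - c.re) ^ 2 + (t - c.im) ^ 2 := by
          rw [← Complex.normSq_eq_norm_sq, Complex.normSq_apply, Complex.sub_re, Complex.sub_im,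
            vp_re, vp_im]
          ring
        rw [← h1]
        constructor
        · intro h
          have hr : 0 < r := (norm_nonneg _).trans_lt h
          exact ⟨pow_lt_pow_left₀ h (norm_nonneg _) (by norm_num), hr⟩
        · rintro ⟨h, hr⟩
          exact lt_of_pow_lt_pow_left₀ 2 hr.le h
    simp only [hpt]
    by_cases hs : s ∈ Ioo (c.re - r) (c.re + r)
    · rw [indicator_of_mem hs, ← lintegral_indicator measurableSet_Ioo]
      have hr : 0 < r := by linarith [hs.1, hs.2]
      have hpos : 0 < r ^ 2 - (s - c.re) ^ 2 := by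
        have h1 : |s - c.re| < r := by rw [abs_lt]; constructor <;> linarith [hs.1, hs.2]
        have h2 : |s - c.re| ^ 2 < r ^ 2 := pow_lt_pow_left₀ h1 (abs_nonneg _) (by norm_num)
        rw [sq_abs] at h2
        linarith
      refine lintegral_congr fun t => ?_
      have hiff : vp s t ∈ ball c r ↔
          t ∈ Ioo (c.im - √(r ^ 2 - (s - c.re) ^ 2)) (c.im + √(r ^ 2 - (s - c.re) ^ 2)) := by
        rw [hmem]
        have h3 : (t - c.im) ^ 2 < r ^ 2 - (s - c.re) ^ 2 ↔ |t - c.im| < √(r ^ 2 - (s - c.re) ^ 2) := by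
          rw [← sq_abs, Real.lt_sqrt (abs_nonneg _)]
        constructor
        · rintro ⟨h, -⟩
          have h4 := abs_lt.1 (h3.1 (by linarith))
          exact ⟨by linarith [h4.1], by linarith [h4.2]⟩
        · rintro ⟨h, h'⟩
          have h5 := h3.2 (abs_lt.2 ⟨by linarith, by linarith⟩)
          exact ⟨by linarith, hr⟩
      by_cases ht : vp s t ∈ ball c r
      · rw [indicator_of_mem ht, indicator_of_mem (hiff.1 ht)]
      · rw [indicator_of_notMem ht, indicator_of_notMem fun h => ht (hiff.2 h)]
    · rw [indicator_of_notMem hs]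
      have h1 : ∀ t : ℝ, (ball c r).indicator F (vp s t) = 0 := fun t => by
        refine indicator_of_notMem (fun h => hs ?_) _
        obtain ⟨h2, hr⟩ := (hmem t).1 h
        have h3 : |s - c.re| < r := by
          refine abs_lt_of_sq_lt_sq ?_ hr.le
          nlinarith [sq_nonneg (t - c.im)]
        have h4 := abs_lt.1 h3
        exact ⟨by linarith [h4.1], by linarith [h4.2]⟩
      simp [h1]
  · refine Measurable.aemeasurable ?_
    exact (hF.indicator measurableSet_ball).comp Complex.measurableEquivRealProd.symm.measurable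

/-- the mean of the distance to the left of the centre: `∫ x 2 √(r² - x²) dx = 2 r³/3` -/
lemma left_int {r : ℝ} (hr : 0 < r) :
    ∫ x in (0 : ℝ)..r, x * (2 * √(r ^ 2 - x ^ 2)) = 2 * r ^ 3 / 3 := by
  have h1 : ∫ x in (0 : ℝ)..r, x * (2 * √(r ^ 2 - x ^ 2)) =
      (-(2 / 3) * (r ^ 2 - r ^ 2) ^ (3 / 2 : ℝ)) - (-(2 / 3) * (r ^ 2 - 0 ^ 2) ^ (3 / 2 : ℝ)) := by
    refine intervalIntegral.integral_eq_sub_of_hasDerivAt
      (f := fun x => -(2 / 3) * (r ^ 2 - x ^ 2) ^ (3 / 2 : ℝ)) (fun x hx => ?_) ?_
    · rw [uIcc_of_le hr.le] at hx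
      have h2 : HasDerivAt (fun x : ℝ => r ^ 2 - x ^ 2) (-(2 * x)) x := by
        have := (hasDerivAt_pow 2 x).const_sub (r ^ 2)
        simpa using this
      have h3 := (h2.rpow_const (p := 3 / 2) (Or.inr (by norm_num))).const_mul (-(2 / 3) : ℝ)
      refine h3.congr_deriv ?_
      have h4 : (3 / 2 - 1 : ℝ) = 1 / 2 := by norm_num
      rw [h4, Real.sqrt_eq_rpow]
      ring
    · refine Continuous.intervalIntegrable ?_ _ _
      fun_prop
  rw [h1]
  have h5 : (r ^ 2 : ℝ) ^ (3 / 2 : ℝ) = r ^ 3 := by
    rw [← Real.rpow_natCast, ← Real.rpow_mul hr.le, ← Real.rpow_natCast]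
    norm_num
  rw [sub_self, Real.zero_rpow (by norm_num), zero_pow (by norm_num), sub_zero, h5]
  ring

end Pool.Agent.H779.LG
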