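import Mathlib
import Pool.Agent.H779.LG.Seg

/-!
# A large value forces points on every line (one function)
-/

open MeasureTheory Set Filter Topology Metric
open Pool.Agent.H779.LX (vp vp_re vp_im vp_mem rect_bound rect_compact zeros_finite area_submean)

namespace Pool.Agent.H779.LG

lemma not_zero {f : ℂ → ℂ} (hf : Differentiable ℂ f) (hne : ∃ s, f s ≠ 0) (z : ℂ) :
    ¬∀ᶠ w in 𝓝 z, f w = 0 := by
  intro h
  obtain ⟨s, hs⟩ := hne
  have h1 : AnalyticOnNhd ℂ f univ := fun w _ => hf.analyticAt w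
  have h2 := h1.eqOn_zero_of_preconnected_of_eventuallyEq_zero isPreconnected_univ (mem_univ z) h
  exact hs (h2 (mem_univ s))

lemma log_int {f : ℂ → ℂ} (hf : Differentiable ℂ f) (s a b : ℝ) :
    IntervalIntegrable (fun t => Real.log ‖f (vp s t)‖) volume a b := by
  have hmer : MeromorphicOn (fun t : ℝ => f (vp s t)) (uIcc a b) := by
    intro t _
    have h1 : AnalyticAt ℝ f (vp s t) := (hf.analyticAt _).restrictScalars
    have h2 : AnalyticAt ℝ (fun t : ℝ => vp s t) t := by
      unfold vp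
      exact analyticAt_const.add
        ((Complex.ofRealCLM.analyticAt t).mul analyticAt_const)
    exact (h1.comp h2).meromorphicAt
  exact hmer.intervalIntegrable_log_norm

/-- one slice -/
lemma slice {f : ℂ → ℂ} (hf : Differentiable ℂ f) (hne : ∃ s, f s ≠ 0) {T r A ℓ M : ℝ}
    (hr : 0 < r) (hr1 : r ≤ 3 / 4) (hA : 0 ≤ A) (hℓ : 0 ≤ ℓ)
    (hright : ∀ t : ℝ, |t - T| ≤ r → Real.log ‖f (vp 2 t)‖ ≤ A)
    (hrefl : ∀ x t : ℝ, 0 ≤ x → x ≤ r → |t - T| ≤ r →
      ‖f (vp (1 / 2 - x) t)‖ ≤ Real.exp (A + ℓ * x) * ‖f (vp (1 / 2 + x) t)‖)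
    (hM : ∀ z ∈ closedBall (vp (1 / 2) T) r, Real.log ‖f z‖ + 2 * A + ℓ * r ≤ M)
    (hM0 : 2 * A + ℓ * r ≤ M)
    (hI : (∫⁻ σ in Ioo (1 / 2 : ℝ) 2, fewest f σ T r) ≠ ⊤)
    {s : ℝ} (hs : s ∈ Ioo (1 / 2 - r) (1 / 2 + r)) :
    ENNReal.ofReal (M - 2 * A - ℓ * max (1 / 2 - s) 0) *
        ENNReal.ofReal (2 * √(r ^ 2 - (s - 1 / 2) ^ 2)) ≤
      (∫⁻ t in Ioo (T - √(r ^ 2 - (s - 1 / 2) ^ 2)) (T + √(r ^ 2 - (s - 1 / 2) ^ 2)),
        ENNReal.ofReal (M - Real.log ‖f (vp s t)‖)) +
      ENNReal.ofReal (Real.pi * ((∫⁻ σ in Ioo (1 / 2 : ℝ) 2, fewest f σ T r).toReal + 3 / 2)) := by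
  have hpi := Real.pi_pos
  set I : ENNReal := ∫⁻ σ in Ioo (1 / 2 : ℝ) 2, fewest f σ T r with hIdef
  set P : ℝ := Real.pi * (I.toReal + 3 / 2) with hP
  have hP0 : 0 ≤ P := by positivity
  set h : ℝ := √(r ^ 2 - (s - 1 / 2) ^ 2) with hh
  set d : ℝ := max (1 / 2 - s) 0 with hd
  set s' : ℝ := 1 / 2 + |s - 1 / 2| with hs'
  have habs : |s - 1 / 2| < r := by rw [abs_lt]; constructor <;> linarith [hs.1, hs.2]
  have hh0 : 0 ≤ h := Real.sqrt_nonneg _
  have hhsq : h ^ 2 = r ^ 2 - (s - 1 / 2) ^ 2 := by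
    rw [hh, Real.sq_sqrt]
    nlinarith [abs_lt.1 habs]
  have hhr : h ≤ r := by
    rw [hh]
    refine Real.sqrt_le_iff.2 ⟨hr.le, ?_⟩
    nlinarith [sq_nonneg (s - 1 / 2)]
  have hd0 : 0 ≤ d := le_max_right _ _
  have hdr : d ≤ r := max_le (by linarith [hs.1]) hr.le
  have hs'1 : 1 / 2 ≤ s' := by rw [hs']; linarith [abs_nonneg (s - 1 / 2)]
  have hs'2 : s' ≤ 2 := by rw [hs']; linarith
  have hab : T - h ≤ T + h := by linarith
  -- the right part
  have h1 := rect_bound (f := f) (α := s') (β := 2) (a := T - h) (b := T + h) hs'2 hab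
    (fun z _ => hf.analyticAt z) (fun z _ => not_zero hf hne z)
    (N := fun x => ENNReal.ofReal Real.pi * (fewest f x T r + 1)) (fun x _ hxf => by
      refine (seg_bound hf hh0 hxf).trans ?_
      gcongr
      exact fewest_mono f x (by rw [sub_self, abs_zero, zero_add]; exact hhr))
  have h2 : ∫⁻ x in Ioo s' 2, ENNReal.ofReal Real.pi * (fewest f x T r + 1) ≤ ENNReal.ofReal P := by
    calc ∫⁻ x in Ioo s' 2, ENNReal.ofReal Real.pi * (fewest f x T r + 1)
        ≤ ∫⁻ x in Ioo (1 / 2 : ℝ) 2, ENNReal.ofReal Real.pi * (fewest f x T r + 1) :=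
          lintegral_mono_set (Ioo_subset_Ioo_left hs'1)
      _ = ENNReal.ofReal Real.pi * (I + ENNReal.ofReal (3 / 2)) := by
          rw [lintegral_const_mul' _ _ ENNReal.ofReal_ne_top,
            lintegral_add_right _ measurable_const, ← hIdef]
          simp only [lintegral_const, Measure.restrict_apply MeasurableSet.univ, univ_inter,
            Real.volume_Ioo, one_mul]
          norm_num
      _ = ENNReal.ofReal P := by
          rw [hP, ENNReal.ofReal_mul hpi.le, ENNReal.ofReal_add ENNReal.toReal_nonneg (by norm_num),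
            ENNReal.ofReal_toReal hI]
  have h3 := (ENNReal.ofReal_le_ofReal_iff hP0).1 (h1.trans h2)
  have h4 := (abs_le.1 h3).1
  have i2 := log_int hf s' (T - h) (T + h)
  have h5 : ∫ t in (T - h)..(T + h), Real.log ‖f (vp 2 t)‖ ≤ 2 * h * A := by
    have := intervalIntegral.integral_mono_on hab (log_int hf 2 _ _)
      (intervalIntegrable_const (c := A)) (fun t ht => hright t (by
        rw [abs_le]; constructor <;> linarith [ht.1, ht.2]))
    rw [intervalIntegral.integral_const, smul_eq_mul] at this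
    linarith
  -- the majorised function
  set g : ℝ → ℝ := fun t => M - A - ℓ * d - Real.log ‖f (vp s' t)‖ with hg
  have hgi : IntervalIntegrable g volume (T - h) (T + h) := intervalIntegrable_const.sub i2
  have hgion : IntegrableOn g (Ioo (T - h) (T + h)) volume := by
    rwa [intervalIntegrable_iff_integrableOn_Ioo_of_le hab] at hgi
  have hmem : ∀ x t : ℝ, t ∈ Ioo (T - h) (T + h) → (x - 1 / 2) ^ 2 = (s - 1 / 2) ^ 2 →
      vp x t ∈ closedBall (vp (1 / 2) T) r := by
    intro x t ht hx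
    rw [mem_closedBall, dist_eq_norm]
    refine abs_le_of_sq_le_sq' ?_ hr.le |>.2
    rw [← Complex.normSq_eq_norm_sq, Complex.normSq_apply, Complex.sub_re, Complex.sub_im,
        vp_re, vp_im, vp_re, vp_im]
    nlinarith [ht.1, ht.2]
  have hs'sq : (s' - 1 / 2) ^ 2 = (s - 1 / 2) ^ 2 := by rw [hs', add_sub_cancel_left, sq_abs]
  have hg0 : ∀ t ∈ Ioo (T - h) (T + h), 0 ≤ g t := by
    intro t ht
    have := hM _ (hmem s' t ht hs'sq)
    have : ℓ * d ≤ ℓ * r := mul_le_mul_of_nonneg_left hdr hℓ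
    show 0 ≤ M - A - ℓ * d - Real.log ‖f (vp s' t)‖
    linarith
  have hgle : ∀ᵐ t ∂(volume.restrict (Ioo (T - h) (T + h))),
      ENNReal.ofReal (g t) ≤ ENNReal.ofReal (M - Real.log ‖f (vp s t)‖) := by
    have hfin := zeros_finite (f := f) (rect_compact s s (T - h) (T + h))
      (fun z _ => hf.analyticAt z) (fun z _ => not_zero hf hne z)
    have hbad : volume (Complex.im '' {z | z ∈ Icc s s ×ℂ Icc (T - h) (T + h) ∧ f z = 0}) = 0 :=
      (hfin.image _).measure_zero _
    have h6 : ∀ᵐ t : ℝ, t ∉ Complex.im '' {z | z ∈ Icc s s ×ℂ Icc (T - h) (T + h) ∧ f z = 0} :=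
      measure_eq_zero_iff_ae_notMem.1 hbad
    rw [ae_restrict_iff' measurableSet_Ioo]
    filter_upwards [h6] with t ht1 ht
    refine ENNReal.ofReal_le_ofReal ?_
    show M - A - ℓ * d - Real.log ‖f (vp s' t)‖ ≤ M - Real.log ‖f (vp s t)‖
    rcases le_total (1 / 2) s with hc | hc
    · have e1 : s' = s := by rw [hs', abs_of_nonneg (by linarith)]; ring
      have : 0 ≤ ℓ * d := mul_nonneg hℓ hd0
      rw [e1]
      linarith
    · have e1 : d = 1 / 2 - s := max_eq_left (by linarith)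
      have e2 : s' = 1 / 2 + d := by
        rw [hs', e1, abs_of_nonpos (by linarith)]; ring
      have e3 : s = 1 / 2 - d := by rw [e1]; ring
      have hne0 : f (vp s t) ≠ 0 := fun h0 => ht1
        ⟨vp s t, ⟨vp_mem.2 ⟨⟨le_rfl, le_rfl⟩, Ioo_subset_Icc_self ht⟩, h0⟩, vp_im s t⟩
      have e4 := hrefl d t hd0 hdr (by rw [abs_le]; constructor <;> linarith [ht.1, ht.2])
      rw [← e3, ← e2] at e4
      have hpos : 0 < ‖f (vp s t)‖ := norm_pos_iff.2 hne0
      have hpos2 : 0 < ‖f (vp s' t)‖ := by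
        rcases (norm_nonneg (f (vp s' t))).eq_or_lt with h0 | h0
        · rw [← h0, mul_zero] at e4
          linarith
        · exact h0
      have e5 := Real.log_le_log hpos e4
      rw [Real.log_mul (Real.exp_pos _).ne' hpos2.ne', Real.log_exp] at e5
      linarith
  have h7 : ∫⁻ t in Ioo (T - h) (T + h), ENNReal.ofReal (g t) ≤
      ∫⁻ t in Ioo (T - h) (T + h), ENNReal.ofReal (M - Real.log ‖f (vp s t)‖) :=
    lintegral_mono_ae hgle
  refine le_trans ?_ (add_le_add_left h7 _)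
  rw [← ofReal_integral_eq_lintegral_ofReal hgion
    ((ae_restrict_iff' measurableSet_Ioo).2 (Eventually.of_forall hg0)),
    ← integral_Ioc_eq_integral_Ioo, ← intervalIntegral.integral_of_le hab]
  have h8 : ∫ t in (T - h)..(T + h), g t =
      2 * h * (M - A - ℓ * d) - ∫ t in (T - h)..(T + h), Real.log ‖f (vp s' t)‖ := by
    rw [hg, intervalIntegral.integral_sub intervalIntegrable_const i2,
      intervalIntegral.integral_const, smul_eq_mul]
    ring
  have h9 : 0 ≤ ∫ t in (T - h)..(T + h), g t := by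
    rw [intervalIntegral.integral_of_le hab, integral_Ioc_eq_integral_Ioo]
    exact setIntegral_nonneg measurableSet_Ioo hg0
  have hc0 : 0 ≤ M - 2 * A - ℓ * d := by
    have e2 : ℓ * d ≤ ℓ * r := mul_le_mul_of_nonneg_left hdr hℓ
    linarith
  rw [← ENNReal.ofReal_mul hc0, ← ENNReal.ofReal_add h9 hP0]
  refine ENNReal.ofReal_le_ofReal ?_
  rw [h8]
  nlinarith

/-- **a large value forces points on every line** -/
theorem low_bound {f : ℂ → ℂ} (hf : Differentiable ℂ f) (hne : ∃ s, f s ≠ 0) {T r A ℓ : ℝ}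
    (hr : 0 < r) (hr1 : r ≤ 3 / 4) (hA : 0 ≤ A) (hℓ : 0 ≤ ℓ)
    (hright : ∀ t : ℝ, |t - T| ≤ r → Real.log ‖f (vp 2 t)‖ ≤ A)
    (hrefl : ∀ x t : ℝ, 0 ≤ x → x ≤ r → |t - T| ≤ r →
      ‖f (vp (1 / 2 - x) t)‖ ≤ Real.exp (A + ℓ * x) * ‖f (vp (1 / 2 + x) t)‖) :
    ENNReal.ofReal (Real.log ‖f (vp (1 / 2) T)‖) ≤
      ENNReal.ofReal (2 / r) * (∫⁻ σ in Ioo (1 / 2 : ℝ) 2, fewest f σ T r) +
        ENNReal.ofReal (2 * r / (3 * Real.pi) * ℓ + 2 * A + 3 / r) := by
  have hpi := Real.pi_pos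
  set c : ℂ := vp (1 / 2) T with hc
  have hcre : c.re = 1 / 2 := vp_re _ _
  have hcim : c.im = T := vp_im _ _
  by_cases hI : (∫⁻ σ in Ioo (1 / 2 : ℝ) 2, fewest f σ T r) = ⊤
  · rw [hI, ENNReal.mul_top (by simpa using hr), top_add]
    exact le_top
  by_cases hz : f c = 0
  · rw [hz, norm_zero, Real.log_zero, ENNReal.ofReal_zero]
    exact zero_le
  set I : ENNReal := ∫⁻ σ in Ioo (1 / 2 : ℝ) 2, fewest f σ T r with hIdef
  set P : ℝ := Real.pi * (I.toReal + 3 / 2) with hP
  have hP0 : 0 ≤ P := by positivity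
  have hfm : Measurable f := hf.continuous.measurable
  obtain ⟨B, hB⟩ := (isCompact_closedBall c r).exists_bound_of_continuousOn
    hf.continuous.continuousOn
  set M : ℝ := Real.log (max B 1) + 2 * A + ℓ * r with hM
  have hlogB : 0 ≤ Real.log (max B 1) := Real.log_nonneg (le_max_right _ _)
  have hMz : ∀ z ∈ closedBall c r, Real.log ‖f z‖ + 2 * A + ℓ * r ≤ M := by
    intro z hz
    have : Real.log ‖f z‖ ≤ Real.log (max B 1) := by
      rcases eq_or_ne ‖f z‖ 0 with h0 | h0
      · rw [h0, Real.log_zero]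
        exact hlogB
      · exact Real.log_le_log (lt_of_le_of_ne (norm_nonneg _) h0.symm)
          ((hB z hz).trans (le_max_left _ _))
    linarith
  have hM0 : 2 * A + ℓ * r ≤ M := by linarith
  have hℓr : 0 ≤ ℓ * r := by positivity
  have hMz' : ∀ z ∈ closedBall c r, Real.log ‖f z‖ ≤ M := fun z hz => by linarith [hMz z hz]
  have hslice : ∀ s ∈ Ioo (1 / 2 - r) (1 / 2 + r), _ := fun s hs =>
    slice hf hne hr hr1 hA hℓ hright hrefl hMz hM0 hI hs
  rw [← hIdef, ← hP] at hslice
  set h : ℝ → ℝ := fun s => √(r ^ 2 - (s - 1 / 2) ^ 2) with hh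
  have hvol : volume (ball c r) = ENNReal.ofReal (Real.pi * r ^ 2) := by
    rw [Complex.volume_ball, ENNReal.ofReal_mul hpi.le, ENNReal.ofReal_pow hr.le, mul_comm]
    congr 1
    rw [ENNReal.ofReal, Real.toNNReal_of_nonneg hpi.le]
    rfl
  have hvs : ∫⁻ s in Ioo (1 / 2 - r) (1 / 2 + r), ENNReal.ofReal (2 * h s) =
      ENNReal.ofReal (Real.pi * r ^ 2) := by
    rw [← hvol, ← setLIntegral_one, ball_slices measurable_const, hcre, hcim]
    refine lintegral_congr fun s => ?_
    simp only [lintegral_const, Measure.restrict_apply MeasurableSet.univ, univ_inter,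
      Real.volume_Ioo, one_mul]
    congr 1
    rw [hh]
    ring
  have hhc : Continuous h := by
    rw [hh]; fun_prop
  -- the left half
  have hleft : ∫⁻ s in Ioo (1 / 2 - r) (1 / 2 + r),
      ENNReal.ofReal (ℓ * max (1 / 2 - s) 0) * ENNReal.ofReal (2 * h s) ≤
        ENNReal.ofReal (ℓ * (2 * r ^ 3 / 3)) := by
    have hh0 : ∀ s, 0 ≤ h s := fun s => Real.sqrt_nonneg _
    have e1 : ∀ s ∈ Ioo (1 / 2 - r) (1 / 2 + r),
        ENNReal.ofReal (ℓ * max (1 / 2 - s) 0) * ENNReal.ofReal (2 * h s) ≤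
        (Ioc (1 / 2 - r) (1 / 2)).indicator
          (fun s => ENNReal.ofReal (ℓ * ((1 / 2 - s) * (2 * h s)))) s := by
      intro s hs
      rcases le_or_gt s (1 / 2) with hc | hc
      · rw [indicator_of_mem (show s ∈ Ioc (1 / 2 - r) (1 / 2) from ⟨hs.1, hc⟩),
          max_eq_left (by linarith), ← ENNReal.ofReal_mul (mul_nonneg hℓ (by linarith)), mul_assoc]
      · rw [max_eq_right (by linarith), mul_zero, ENNReal.ofReal_zero, zero_mul]
        exact zero_le
    have hle : (1 / 2 - r : ℝ) ≤ 1 / 2 := by linarith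
    have hcont : Continuous fun s => ℓ * ((1 / 2 - s) * (2 * h s)) := by fun_prop
    calc ∫⁻ s in Ioo (1 / 2 - r) (1 / 2 + r),
          ENNReal.ofReal (ℓ * max (1 / 2 - s) 0) * ENNReal.ofReal (2 * h s)
        ≤ ∫⁻ s in Ioo (1 / 2 - r) (1 / 2 + r), (Ioc (1 / 2 - r) (1 / 2)).indicator
          (fun s => ENNReal.ofReal (ℓ * ((1 / 2 - s) * (2 * h s)))) s :=
          setLIntegral_mono' measurableSet_Ioo e1
      _ ≤ ∫⁻ s, (Ioc (1 / 2 - r) (1 / 2)).indicator
          (fun s => ENNReal.ofReal (ℓ * ((1 / 2 - s) * (2 * h s)))) s := setLIntegral_le_lintegral _ _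
      _ = ∫⁻ s in Ioc (1 / 2 - r) (1 / 2), ENNReal.ofReal (ℓ * ((1 / 2 - s) * (2 * h s))) :=
          lintegral_indicator measurableSet_Ioc _
      _ = ENNReal.ofReal (ℓ * (2 * r ^ 3 / 3)) := by
          rw [← ofReal_integral_eq_lintegral_ofReal
            ((hcont.intervalIntegrable (1 / 2 - r) (1 / 2)).1)
            ((ae_restrict_iff' measurableSet_Ioc).2 (Eventually.of_forall fun s hs => by
              have := hh0 s
              have : 0 ≤ 1 / 2 - s := by linarith [hs.2]
              positivity)), ← intervalIntegral.integral_of_le hle,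
            intervalIntegral.integral_const_mul]
          congr 2
          have e2 : (∫ s in (1 / 2 - r)..(1 / 2), (1 / 2 - s) * (2 * h s)) =
              ∫ s in (1 / 2 - r)..(1 / 2), (fun x => x * (2 * √(r ^ 2 - x ^ 2))) (1 / 2 - s) := by
            refine intervalIntegral.integral_congr fun s _ => ?_
            simp only [hh]
            rw [show (s - 1 / 2) ^ 2 = (1 / 2 - s) ^ 2 by ring]
          rw [e2, intervalIntegral.integral_comp_sub_left (fun x => x * (2 * √(r ^ 2 - x ^ 2))),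
            sub_self, sub_sub_cancel, left_int hr]
  have hsum : ENNReal.ofReal (M - 2 * A) * ENNReal.ofReal (Real.pi * r ^ 2) ≤
      ENNReal.ofReal (Real.pi * r ^ 2 * (M - Real.log ‖f c‖)) + ENNReal.ofReal (2 * r * P) +
        ENNReal.ofReal (ℓ * (2 * r ^ 3 / 3)) := by
    have hmeas : Measurable fun z => ENNReal.ofReal (M - Real.log ‖f z‖) :=
      ENNReal.measurable_ofReal.comp (measurable_const.sub (Real.measurable_log.comp hfm.norm))
    have e1 : ∀ s ∈ Ioo (1 / 2 - r) (1 / 2 + r),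
        ENNReal.ofReal (M - 2 * A) * ENNReal.ofReal (2 * h s) ≤
        ((∫⁻ t in Ioo (T - h s) (T + h s), ENNReal.ofReal (M - Real.log ‖f (vp s t)‖)) +
          ENNReal.ofReal P) +
        ENNReal.ofReal (ℓ * max (1 / 2 - s) 0) * ENNReal.ofReal (2 * h s) := by
      intro s hs
      refine le_trans ?_ (add_le_add_left (hslice s hs) _)
      have hd0 : 0 ≤ max (1 / 2 - s) 0 := le_max_right _ _
      have hdr : max (1 / 2 - s) 0 ≤ r := max_le (by linarith [hs.1]) hr.le
      have e2 : ℓ * max (1 / 2 - s) 0 ≤ ℓ * r := mul_le_mul_of_nonneg_left hdr hℓ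
      rw [← add_mul, ← ENNReal.ofReal_add (by linarith) (by positivity)]
      refine le_of_eq ?_
      congr 2
      ring
    calc ENNReal.ofReal (M - 2 * A) * ENNReal.ofReal (Real.pi * r ^ 2)
        = ∫⁻ s in Ioo (1 / 2 - r) (1 / 2 + r),
            ENNReal.ofReal (M - 2 * A) * ENNReal.ofReal (2 * h s) := by
          rw [lintegral_const_mul' _ _ ENNReal.ofReal_ne_top, hvs]
      _ ≤ ∫⁻ s in Ioo (1 / 2 - r) (1 / 2 + r),
          (((∫⁻ t in Ioo (T - h s) (T + h s), ENNReal.ofReal (M - Real.log ‖f (vp s t)‖)) +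
            ENNReal.ofReal P) +
          ENNReal.ofReal (ℓ * max (1 / 2 - s) 0) * ENNReal.ofReal (2 * h s)) :=
          setLIntegral_mono' measurableSet_Ioo e1
      _ = ((∫⁻ z in ball c r, ENNReal.ofReal (M - Real.log ‖f z‖)) + ENNReal.ofReal (2 * r * P)) +
          ∫⁻ s in Ioo (1 / 2 - r) (1 / 2 + r),
            ENNReal.ofReal (ℓ * max (1 / 2 - s) 0) * ENNReal.ofReal (2 * h s) := by
          rw [lintegral_add_right, lintegral_add_right _ measurable_const, ball_slices hmeas, hcre,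
            hcim]
          · congr 2
            simp only [lintegral_const, Measure.restrict_apply MeasurableSet.univ, univ_inter,
              Real.volume_Ioo]
            rw [← ENNReal.ofReal_mul hP0]
            congr 1
            ring
          · have m1 : Measurable fun s : ℝ => ENNReal.ofReal (ℓ * max (1 / 2 - s) 0) :=
              ENNReal.measurable_ofReal.comp (Measurable.const_mul
                ((measurable_const.sub measurable_id).max measurable_const) _)
            have m2 : Measurable fun s : ℝ => ENNReal.ofReal (2 * h s) :=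
              ENNReal.measurable_ofReal.comp (hhc.measurable.const_mul _)
            exact m1.mul m2
      _ ≤ _ := by
          gcongr
          exact area_submean hfm hr (fun z _ => hf.analyticAt z) hz hMz'
  have hMc := hMz' c (mem_closedBall_self hr.le)
  have hMc0 : 0 ≤ M - Real.log ‖f c‖ := by linarith
  rw [← ENNReal.ofReal_mul (by linarith), ← ENNReal.ofReal_add (by positivity) (by positivity),
    ← ENNReal.ofReal_add (by positivity) (by positivity),
    ENNReal.ofReal_le_ofReal_iff (by positivity)] at hsum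
  have hfin : Real.log ‖f c‖ ≤ 2 / r * I.toReal + (2 * r / (3 * Real.pi) * ℓ + 2 * A + 3 / r) := by
    have h1 : Real.pi * r ^ 2 * Real.log ‖f c‖ ≤
        Real.pi * r ^ 2 * (2 / r * I.toReal + (2 * r / (3 * Real.pi) * ℓ + 2 * A + 3 / r)) := by
      have e1 : Real.pi * r ^ 2 * (2 / r * I.toReal + (2 * r / (3 * Real.pi) * ℓ + 2 * A + 3 / r)) =
          2 * r * P + ℓ * (2 * r ^ 3 / 3) + 2 * A * (Real.pi * r ^ 2) := by
        rw [hP]
        field_simp
        ring
      rw [e1]
      nlinarith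
    exact le_of_mul_le_mul_left h1 (by positivity)
  calc ENNReal.ofReal (Real.log ‖f c‖)
      ≤ ENNReal.ofReal (2 / r * I.toReal + (2 * r / (3 * Real.pi) * ℓ + 2 * A + 3 / r)) :=
        ENNReal.ofReal_le_ofReal hfin
    _ = _ := by
        rw [ENNReal.ofReal_add (by positivity) (by positivity), ENNReal.ofReal_mul (by positivity),
          ENNReal.ofReal_toReal hI]

end Pool.Agent.H779.LG
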