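import Mathlib
import Pool.Agent.H779.LX.Rect

/-!
# The size to the right of a short piece of the critical line
-/

open Set Filter Topology Metric
open Pool.Agent.H779.LX (vp vp_re vp_im)

namespace Pool.Agent.H779.LG

/-- maximum principle on a box -/
lemma box_max {G : ℂ → ℂ} (hG : Differentiable ℂ G) {W C : ℝ} (hW : 0 < W)
    (h0 : ∀ z : ℂ, z.re = 0 → |z.im| ≤ W → ‖G z‖ ≤ C)
    (h1 : ∀ z : ℂ, z.re = 1 → |z.im| ≤ W → ‖G z‖ ≤ C)
    (h2 : ∀ z : ℂ, 0 ≤ z.re → z.re ≤ 1 → |z.im| = W → ‖G z‖ ≤ C) {x : ℝ} (hx0 : 0 ≤ x)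
    (hx1 : x ≤ 1) : ‖G x‖ ≤ C := by
  set U : Set ℂ := Ioo (0 : ℝ) 1 ×ℂ Ioo (-W) W with hU
  have hcl : closure U = Icc (0 : ℝ) 1 ×ℂ Icc (-W) W := by
    rw [hU, Complex.closure_reProdIm, closure_Ioo (by norm_num), closure_Ioo (by linarith)]
  have hop : IsOpen U := isOpen_Ioo.reProdIm isOpen_Ioo
  have hbd : Bornology.IsBounded U := by
    have : IsCompact (Icc (0 : ℝ) 1 ×ℂ Icc (-W) W) := isCompact_Icc.reProdIm isCompact_Icc
    rw [← hcl] at this
    exact this.isBounded.subset subset_closure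
  refine Complex.norm_le_of_forall_mem_frontier_norm_le hbd hG.diffContOnCl (fun z hz => ?_)
    (show (x : ℂ) ∈ closure U from ?_)
  · rw [frontier, hop.interior_eq, Set.mem_sdiff, hcl, Complex.mem_reProdIm] at hz
    obtain ⟨⟨⟨a1, a2⟩, a3, a4⟩, h5⟩ := hz
    have habs : |z.im| ≤ W := abs_le.2 ⟨a3, a4⟩
    rcases a1.eq_or_lt with e | b1
    · exact h0 z e.symm habs
    rcases a2.eq_or_lt with e | b2
    · exact h1 z e habs
    rcases habs.eq_or_lt with e | b3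
    · exact h2 z a1 a2 e
    · exact absurd (show z ∈ U from Complex.mem_reProdIm.2 ⟨⟨b1, b2⟩, abs_lt.1 b3⟩) h5
  · rw [hcl, Complex.mem_reProdIm, Complex.ofReal_re, Complex.ofReal_im]
    exact ⟨⟨hx0, hx1⟩, by linarith, hW.le⟩

/-- **the size to the right of a short piece of the critical line** -/
theorem pl {f : ℂ → ℂ} (hf : Differentiable ℂ f) {t Λ W c B b δ η : ℝ} (hΛ : 0 ≤ Λ) (hW : 1 ≤ W)
    (hc : 0 < c) (hb : 0 ≤ b) (hδ : 0 ≤ δ) (hη : 0 ≤ η) (hcW : B ≤ c * (W ^ 2 - 1))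
    (hcr : ∀ s : ℂ, 1 / 2 ≤ s.re → |s.im - t| ≤ W → ‖f s‖ ≤ Real.exp (B * (Λ + 1)))
    (hr : ∀ s : ℂ, s.re = 3 / 2 → |s.im - t| ≤ W → ‖f s‖ ≤ Real.exp (δ * Λ + b))
    (hl : ∀ s : ℂ, s.re = 1 / 2 → |s.im - t| ≤ W → ‖f s‖ ≤ Real.exp (η * Λ))
    {s : ℂ} (hs : s.im = t) (hs0 : 1 / 2 ≤ s.re) (hs1 : s.re ≤ 3 / 2) :
    ‖f s‖ ≤ Real.exp ((η + δ + c) * Λ + (b + c)) := by
  set G : ℂ → ℂ := fun z => f (vp (1 / 2) t + z) * Complex.exp ((c * (Λ + 1) : ℝ) * z ^ 2) with hG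
  have hGd : Differentiable ℂ G := by
    have h1 : Differentiable ℂ fun z : ℂ => f (vp (1 / 2) t + z) := hf.comp (by fun_prop)
    exact h1.mul (by fun_prop)
  have hre : ∀ z : ℂ, (vp (1 / 2) t + z).re = 1 / 2 + z.re := fun z => by
    rw [Complex.add_re, vp_re]
  have him : ∀ z : ℂ, (vp (1 / 2) t + z).im - t = z.im := fun z => by
    rw [Complex.add_im, vp_im]; ring
  have hn : ∀ z : ℂ, ‖G z‖ = ‖f (vp (1 / 2) t + z)‖ *
      Real.exp (c * (Λ + 1) * (z.re ^ 2 - z.im ^ 2)) := fun z => by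
    rw [hG]
    simp only [norm_mul, Complex.norm_exp, Complex.re_ofReal_mul]
    congr 3
    rw [sq, Complex.mul_re]
    ring
  have hcΛ : 0 ≤ c * (Λ + 1) := by positivity
  have key : ‖G ((s.re - 1 / 2 : ℝ) : ℂ)‖ ≤ Real.exp ((η + δ + c) * Λ + (b + c)) := by
    refine box_max hGd (W := W) (by linarith) (fun z h1 h2 => ?_) (fun z h1 h2 => ?_)
      (fun z h1 h2 h3 => ?_) (by linarith) (by linarith)
    · rw [hn]
      have e1 := hl (vp (1 / 2) t + z) (by rw [hre, h1]; ring) (by rw [him]; exact h2)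
      have e2 : Real.exp (c * (Λ + 1) * (z.re ^ 2 - z.im ^ 2)) ≤ 1 := by
        rw [Real.exp_le_one_iff, h1]
        nlinarith [sq_nonneg z.im]
      calc ‖f (vp (1 / 2) t + z)‖ * Real.exp (c * (Λ + 1) * (z.re ^ 2 - z.im ^ 2))
          ≤ Real.exp (η * Λ) * 1 := mul_le_mul e1 e2 (Real.exp_pos _).le (Real.exp_pos _).le
        _ = Real.exp (η * Λ) := mul_one _
        _ ≤ _ := Real.exp_le_exp.2 (by
            have : 0 ≤ (δ + c) * Λ := by positivity
            linarith)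
    · rw [hn]
      have e1 := hr (vp (1 / 2) t + z) (by rw [hre, h1]; ring) (by rw [him]; exact h2)
      have e2 : Real.exp (c * (Λ + 1) * (z.re ^ 2 - z.im ^ 2)) ≤ Real.exp (c * (Λ + 1)) := by
        rw [Real.exp_le_exp, h1]
        nlinarith [mul_nonneg hcΛ (sq_nonneg z.im)]
      calc ‖f (vp (1 / 2) t + z)‖ * Real.exp (c * (Λ + 1) * (z.re ^ 2 - z.im ^ 2))
          ≤ Real.exp (δ * Λ + b) * Real.exp (c * (Λ + 1)) :=
            mul_le_mul e1 e2 (Real.exp_pos _).le (Real.exp_pos _).le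
        _ = Real.exp ((δ + c) * Λ + (b + c)) := by rw [← Real.exp_add]; congr 1; ring
        _ ≤ _ := Real.exp_le_exp.2 (by
            have : 0 ≤ η * Λ := by positivity
            linarith)
    · rw [hn]
      have e1 := hcr (vp (1 / 2) t + z) (by rw [hre]; linarith) (by rw [him, h3])
      have h4 : z.im ^ 2 = W ^ 2 := by rw [← sq_abs, h3]
      have e2 : Real.exp (c * (Λ + 1) * (z.re ^ 2 - z.im ^ 2)) ≤ Real.exp (-(B * (Λ + 1))) := by
        rw [Real.exp_le_exp, h4]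
        have h5 : z.re ^ 2 ≤ 1 := by nlinarith
        have h6 : 0 ≤ Λ + 1 := by linarith
        have h7 := mul_le_mul_of_nonneg_right hcW h6
        nlinarith
      calc ‖f (vp (1 / 2) t + z)‖ * Real.exp (c * (Λ + 1) * (z.re ^ 2 - z.im ^ 2))
          ≤ Real.exp (B * (Λ + 1)) * Real.exp (-(B * (Λ + 1))) :=
            mul_le_mul e1 e2 (Real.exp_pos _).le (Real.exp_pos _).le
        _ = 1 := by rw [← Real.exp_add, add_neg_cancel, Real.exp_zero]
        _ ≤ _ := Real.one_le_exp (by positivity)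
  rw [hn, Complex.ofReal_re, Complex.ofReal_im] at key
  have e3 : vp (1 / 2) t + ((s.re - 1 / 2 : ℝ) : ℂ) = s := by
    apply Complex.ext
    · rw [hre, Complex.ofReal_re]; ring
    · rw [Complex.add_im, vp_im, Complex.ofReal_im, hs]; ring
  rw [e3] at key
  have e4 : 1 ≤ Real.exp (c * (Λ + 1) * ((s.re - 1 / 2) ^ 2 - 0 ^ 2)) := by
    apply Real.one_le_exp
    have := sq_nonneg (s.re - 1 / 2)
    rw [zero_pow (by norm_num), sub_zero]
    exact mul_nonneg hcΛ this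
  calc ‖f s‖ = ‖f s‖ * 1 := (mul_one _).symm
    _ ≤ ‖f s‖ * Real.exp (c * (Λ + 1) * ((s.re - 1 / 2) ^ 2 - 0 ^ 2)) :=
      mul_le_mul_of_nonneg_left e4 (norm_nonneg _)
    _ ≤ _ := key

end Pool.Agent.H779.LG
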