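import Mathlib
import Pool.Agent.H779.LG.Low
import Pool.Agent.H779.LG.Cnt
import Pool.Agent.H779.LG.PL
import Pool.Graph.R_seed8.W587.PL.F

/-!
# Families of L-functions
-/

open MeasureTheory Set Filter Topology Metric
open Pool.Agent.H779.LX (vp vp_re vp_im)
open W587.PL (Fam2)

namespace Pool.Agent.H779.LG

variable {ι : Type} {L : ι → ℂ → ℂ} {X Q : ι → ℝ → ℝ}

lemma vp_mk (s t : ℝ) : vp s t = ⟨s, t⟩ := by
  apply Complex.ext <;> simp [vp]

/-- lower bounds to the right of the critical strip -/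
def LowR (L : ι → ℂ → ℂ) (X : ι → ℝ → ℝ) : Prop := ∀ δ : ℝ, 0 < δ → ∃ B : ℝ, ∀ i (s : ℂ),
  1 + δ ≤ s.re → 1 ≤ B * X i s.im ^ δ * ‖L i s‖

lemma LowR.ne (h : LowR L X) (i : ι) : ∃ s, L i s ≠ 0 := by
  obtain ⟨B, hB⟩ := h 1 one_pos
  refine ⟨2, fun h => ?_⟩
  have h1 := hB i 2 (by norm_num)
  rw [h, norm_zero, mul_zero] at h1
  linarith

/-- the logarithm of the conductor changes little -/
lemma logX (H : Fam2 L X Q) : ∃ m : ℝ, 0 ≤ m ∧ ∀ i T t, ∀ R : ℝ, |t - T| ≤ R →
    Real.log (X i t) ≤ Real.log (X i T) + m * R := by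
  obtain ⟨m, hm, hs⟩ := H.Xs
  refine ⟨m, hm, fun i T t R hR => ?_⟩
  have h1 := hs i T (t - T)
  rw [add_sub_cancel] at h1
  have hX := H.X1 i T
  have hXt := H.X1 i t
  have h2 : 0 < 1 + |t - T| := by positivity
  have h3 := Real.log_le_log (by linarith) h1
  rw [Real.log_mul (Real.rpow_pos_of_pos h2 m).ne' (by linarith), Real.log_rpow h2] at h3
  have h4 : Real.log (1 + |t - T|) ≤ |t - T| := by
    have := Real.log_le_sub_one_of_pos h2
    linarith
  have h5 : m * Real.log (1 + |t - T|) ≤ m * R := mul_le_mul_of_nonneg_left (h4.trans hR) hm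
  linarith

lemma logQ (H : Fam2 L X Q) : ∃ m : ℝ, 0 ≤ m ∧ ∀ i T t, ∀ R : ℝ, |t - T| ≤ R →
    Real.log (Q i t) ≤ Real.log (Q i T) + m * R := by
  obtain ⟨m, hm, hs⟩ := H.Qs
  refine ⟨m, hm, fun i T t R hR => ?_⟩
  have h1 := hs i T (t - T)
  rw [add_sub_cancel] at h1
  have hX := H.Q1 i T
  have hXt := H.Q1 i t
  have h2 : 0 < 1 + |t - T| := by positivity
  have h3 := Real.log_le_log (by linarith) h1
  rw [Real.log_mul (Real.rpow_pos_of_pos h2 m).ne' (by linarith), Real.log_rpow h2] at h3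
  have h4 : Real.log (1 + |t - T|) ≤ |t - T| := by
    have := Real.log_le_sub_one_of_pos h2
    linarith
  have h5 : m * Real.log (1 + |t - T|) ≤ m * R := mul_le_mul_of_nonneg_left (h4.trans hR) hm
  linarith

/-- bounds in exponential form: right of the critical strip -/
lemma rightE (H : Fam2 L X Q) {δ : ℝ} (hδ : 0 < δ) : ∃ b m : ℝ, 0 ≤ b ∧ 0 ≤ m ∧
    ∀ i T (s : ℂ) (R : ℝ), 1 + δ ≤ s.re → |s.im - T| ≤ R →
    ‖L i s‖ ≤ Real.exp (δ * Real.log (X i T) + b + δ * (m * R)) := by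
  obtain ⟨B, hB⟩ := H.right δ hδ
  obtain ⟨m, hm, hX⟩ := logX H
  refine ⟨Real.log (max B 1), m, Real.log_nonneg (le_max_right _ _), hm, fun i T s R hs hR => ?_⟩
  have h1 := hB i s hs
  have hX1 := H.X1 i s.im
  have h2 := hX i T s.im R hR
  have hB0 : 0 < max B 1 := lt_of_lt_of_le one_pos (le_max_right _ _)
  calc ‖L i s‖ ≤ B * X i s.im ^ δ := h1
    _ ≤ max B 1 * X i s.im ^ δ :=
        mul_le_mul_of_nonneg_right (le_max_left _ _) (Real.rpow_nonneg (by linarith) _)
    _ = Real.exp (Real.log (max B 1) + Real.log (X i s.im) * δ) := by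
        rw [Real.exp_add, Real.exp_log hB0, Real.rpow_def_of_pos (by linarith)]
    _ ≤ _ := Real.exp_le_exp.2 (by nlinarith)

lemma lowE (H : Fam2 L X Q) (hl : LowR L X) {δ : ℝ} (hδ : 0 < δ) : ∃ b m : ℝ, 0 ≤ b ∧ 0 ≤ m ∧
    ∀ i T (s : ℂ) (R : ℝ), 1 + δ ≤ s.re → |s.im - T| ≤ R →
    Real.exp (-(δ * Real.log (X i T) + b + δ * (m * R))) ≤ ‖L i s‖ := by
  obtain ⟨B, hB⟩ := hl δ hδ
  obtain ⟨m, hm, hX⟩ := logX H
  refine ⟨Real.log (max B 1), m, Real.log_nonneg (le_max_right _ _), hm, fun i T s R hs hR => ?_⟩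
  have h1 := hB i s hs
  have hX1 := H.X1 i s.im
  have h2 := hX i T s.im R hR
  have hB0 : 0 < max B 1 := lt_of_lt_of_le one_pos (le_max_right _ _)
  have h3 : B * X i s.im ^ δ ≤ Real.exp (δ * Real.log (X i T) + Real.log (max B 1) +
      δ * (m * R)) := by
    calc B * X i s.im ^ δ ≤ max B 1 * X i s.im ^ δ :=
        mul_le_mul_of_nonneg_right (le_max_left _ _) (Real.rpow_nonneg (by linarith) _)
    _ = Real.exp (Real.log (max B 1) + Real.log (X i s.im) * δ) := by
        rw [Real.exp_add, Real.exp_log hB0, Real.rpow_def_of_pos (by linarith)]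
    _ ≤ _ := Real.exp_le_exp.2 (by nlinarith)
  have h4 : 1 ≤ Real.exp (δ * Real.log (X i T) + Real.log (max B 1) + δ * (m * R)) * ‖L i s‖ :=
    h1.trans (mul_le_mul_of_nonneg_right h3 (norm_nonneg _))
  rw [Real.exp_neg, inv_le_iff_one_le_mul₀ (Real.exp_pos _), mul_comm]
  exact h4

/-- **a large value forces points on every line**, for a family -/
theorem fam_low (H : Fam2 L X Q) (hl : LowR L X) {ε : ℝ} (hε : 0 < ε) : ∃ K : ℝ, 0 ≤ K ∧
    ∀ i (T r : ℝ), 0 < r → r ≤ 3 / 4 →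
    ENNReal.ofReal (Real.log ‖L i (vp (1 / 2) T)‖) ≤
      ENNReal.ofReal (2 / r) * (∫⁻ σ in Ioo (1 / 2 : ℝ) 2, fewest (L i) σ T r) +
        ENNReal.ofReal (2 * r / (3 * Real.pi) * Real.log (Q i T) + ε * Real.log (X i T) + K +
          3 / r) := by
  obtain ⟨b, m, hb, hm, hright⟩ := rightE H (δ := min (ε / 2) 1) (by positivity)
  obtain ⟨CR, hCR, hrefl⟩ := H.refl
  obtain ⟨m', hm', hQ⟩ := logQ H
  set δ : ℝ := min (ε / 2) 1 with hδ
  have hδ0 : 0 < δ := by rw [hδ]; positivity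
  have hδε : δ ≤ ε / 2 := min_le_left _ _
  have hδ1 : δ ≤ 1 := min_le_right _ _
  set K1 : ℝ := b + m + Real.log (max CR 1) + m' with hK1
  have hlC : 0 ≤ Real.log (max CR 1) := Real.log_nonneg (le_max_right _ _)
  have hK10 : 0 ≤ K1 := by rw [hK1]; positivity
  refine ⟨2 * K1, by positivity, fun i T r hr hr1 => ?_⟩
  have hX0 : 0 ≤ Real.log (X i T) := Real.log_nonneg (H.X1 i T)
  have hQ0 : 0 ≤ Real.log (Q i T) := Real.log_nonneg (H.Q1 i T)
  have h := low_bound (H.diff i) (hl.ne i) (T := T) (r := r) (A := ε / 2 * Real.log (X i T) + K1)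
    (ℓ := Real.log (Q i T)) hr hr1 (by positivity) hQ0 (fun t ht => ?_) (fun x t hx hxr ht => ?_)
  · refine h.trans (le_of_eq ?_)
    congr 2
    ring
  · have h1 := hright i T (vp 2 t) r (by rw [vp_re]; linarith) (by rw [vp_im]; exact ht)
    rcases eq_or_ne ‖L i (vp 2 t)‖ 0 with h0 | h0
    · rw [h0, Real.log_zero]; positivity
    · have h2 := Real.log_le_log (lt_of_le_of_ne (norm_nonneg _) h0.symm) h1
      rw [Real.log_exp] at h2
      have h3 : δ * Real.log (X i T) ≤ ε / 2 * Real.log (X i T) :=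
        mul_le_mul_of_nonneg_right hδε hX0
      have h4 : δ * (m * r) ≤ m := by
        have : δ * (m * r) ≤ 1 * (m * 1) := by
          apply mul_le_mul hδ1 _ (by positivity) (by norm_num)
          exact mul_le_mul_of_nonneg_left (by linarith) hm
        linarith
      rw [hK1]
      linarith
  · have h1 := hrefl i x t hx (hxr.trans hr1)
    rw [← vp_mk, ← vp_mk] at h1
    refine h1.trans (mul_le_mul_of_nonneg_right ?_ (norm_nonneg _))
    have hQt := H.Q1 i t
    have h2 := hQ i T t r ht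
    have hC0 : 0 < max CR 1 := lt_of_lt_of_le one_pos (le_max_right _ _)
    calc CR * Q i t ^ x ≤ max CR 1 * Q i t ^ x :=
          mul_le_mul_of_nonneg_right (le_max_left _ _) (Real.rpow_nonneg (by linarith) _)
      _ = Real.exp (Real.log (max CR 1) + Real.log (Q i t) * x) := by
          rw [Real.exp_add, Real.exp_log hC0, Real.rpow_def_of_pos (by linarith)]
      _ ≤ _ := by
          refine Real.exp_le_exp.2 ?_
          have h3 : Real.log (Q i t) * x ≤ (Real.log (Q i T) + m' * r) * x :=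
            mul_le_mul_of_nonneg_right h2 hx
          have h4 : m' * r * x ≤ m' := by
            have : r * x ≤ 1 := by nlinarith
            calc m' * r * x = m' * (r * x) := by ring
              _ ≤ m' * 1 := mul_le_mul_of_nonneg_left this hm'
              _ = m' := mul_one _
          have h5 : 0 ≤ ε / 2 * Real.log (X i T) := by positivity
          rw [hK1]
          nlinarith

/-- the crude bound in exponential form -/
lemma crudeE (H : Fam2 L X Q) : ∃ p q : ℝ, 0 ≤ p ∧ 0 ≤ q ∧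
    ∀ i T (s : ℂ) (R : ℝ), 0 ≤ R → -1 / 4 ≤ s.re → |s.im - T| ≤ R →
    ‖L i s‖ ≤ Real.exp ((p + q * R) * (Real.log (X i T) + 1)) := by
  obtain ⟨C, B, hC, hB, hcr⟩ := H.crude
  obtain ⟨m, hm, hX⟩ := logX H
  have hl : 0 ≤ Real.log (max C 1) := Real.log_nonneg (le_max_right _ _)
  refine ⟨Real.log (max C 1) + B, B * m, by positivity, by positivity, fun i T s R hR0 hs hR => ?_⟩
  have h1 := hcr i s hs
  have hX1 := H.X1 i s.im
  have hΛ : 0 ≤ Real.log (X i T) := Real.log_nonneg (H.X1 i T)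
  have h2 := hX i T s.im R hR
  have hB0 : 0 < max C 1 := lt_of_lt_of_le one_pos (le_max_right _ _)
  calc ‖L i s‖ ≤ C * X i s.im ^ B := h1
    _ ≤ max C 1 * X i s.im ^ B :=
        mul_le_mul_of_nonneg_right (le_max_left _ _) (Real.rpow_nonneg (by linarith) _)
    _ = Real.exp (Real.log (max C 1) + Real.log (X i s.im) * B) := by
        rw [Real.exp_add, Real.exp_log hB0, Real.rpow_def_of_pos (by linarith)]
    _ ≤ _ := by
        refine Real.exp_le_exp.2 ?_
        have h3 : Real.log (X i s.im) * B ≤ (Real.log (X i T) + m * R) * B :=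
          mul_le_mul_of_nonneg_right h2 hB
        have h4 : 0 ≤ Real.log (max C 1) * Real.log (X i T) := by positivity
        have h5 : 0 ≤ B * m * R * Real.log (X i T) := by positivity
        nlinarith

/-- the crude bound for the number of points -/
theorem fam_crude (H : Fam2 L X Q) (hl : LowR L X) : ∃ C : ℝ, 0 < C ∧ ∀ i (T σ : ℝ),
    1 / 2 ≤ σ → σ ≤ 2 → fewest (L i) σ T 1 ≤ ENNReal.ofReal (C * (Real.log (X i T) + 1)) := by
  obtain ⟨C, hC, hcount⟩ := count (3 / 4) (by norm_num) (by norm_num)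
  obtain ⟨p, q, hp, hq, hcr⟩ := crudeE H
  obtain ⟨b, m, hb, hm, hlow⟩ := lowE H hl one_pos
  set D : ℝ := (p + q * 5) + (1 + b + m) with hD
  have hD1 : 1 ≤ D := by rw [hD]; nlinarith
  refine ⟨C * D, by positivity, fun i T σ hσ hσ2 => ?_⟩
  have hΛ : 0 ≤ Real.log (X i T) := Real.log_nonneg (H.X1 i T)
  have h := hcount (L i) (H.diff i) σ T (D * (Real.log (X i T) + 1)) (by nlinarith) hσ hσ2
    (fun w hw1 hw2 => (hcr i T w 5 (by norm_num) (by linarith) hw2).trans
      (Real.exp_le_exp.2 ?_)) (fun t ht => ?_)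
  · refine h.trans (le_of_eq ?_)
    congr 1
    ring
  · refine mul_le_mul_of_nonneg_right ?_ (by linarith)
    rw [hD]; linarith
  · refine le_trans ?_ (hlow i T (vp 3 t) 1 (by rw [vp_re]; norm_num) (by rw [vp_im]; exact ht))
    refine Real.exp_le_exp.2 ?_
    have h1 : 0 ≤ (p + q * 5) * (Real.log (X i T) + 1) := by positivity
    have h2 : 0 ≤ (b + m) * Real.log (X i T) := by positivity
    rw [hD]
    nlinarith

lemma exists_W {c p q : ℝ} (hc : 0 < c) (hp : 0 ≤ p) (hq : 0 ≤ q) : ∃ W : ℝ, 2 ≤ W ∧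
    p + q * W ≤ c * (W ^ 2 - 1) := by
  refine ⟨max 2 (4 / 3 * (p + q) / c), le_max_left _ _, ?_⟩
  set W : ℝ := max 2 (4 / 3 * (p + q) / c) with hW
  have h1 : 2 ≤ W := le_max_left _ _
  have h2 : 4 / 3 * (p + q) ≤ W * c := by
    rw [← div_le_iff₀ hc]; exact le_max_right _ _
  have h3 : W ^ 2 - 1 ≥ 3 / 4 * (W * W) := by nlinarith
  have h4 : c * (3 / 4 * (W * W)) ≤ c * (W ^ 2 - 1) := mul_le_mul_of_nonneg_left h3 hc.le
  have h5 : (p + q) * W ≤ c * (3 / 4 * (W * W)) := by nlinarith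
  nlinarith

/-- **few points on the best line where `L` is small on the critical line** -/
theorem fam_few (H : Fam2 L X Q) (hl : LowR L X) {ε : ℝ} (hε : 0 < ε) : ∃ η W K : ℝ, 0 < η ∧
    0 ≤ W ∧ 0 ≤ K ∧ ∀ i (T : ℝ),
    (∀ u : ℝ, |u - T| ≤ W → ‖L i (vp (1 / 2) u)‖ ≤ Real.exp (η * Real.log (X i T))) →
    ∫⁻ σ in Ioo (1 / 2 : ℝ) 2, fewest (L i) σ T 1 ≤ ENNReal.ofReal (ε * Real.log (X i T) + K) := by
  obtain ⟨C0, hC0, hcrude⟩ := fam_crude H hl
  set ρ : ℝ := min (1 / 2) (ε / (4 * C0)) with hρdef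
  have hρ : 0 < ρ := by rw [hρdef]; positivity
  have hρ2 : ρ ≤ 1 / 2 := min_le_left _ _
  have hρC : C0 * ρ ≤ ε / 4 := by
    have : ρ ≤ ε / (4 * C0) := min_le_right _ _
    rw [le_div_iff₀ (by positivity)] at this
    linarith
  obtain ⟨C, hC, hcount⟩ := count ρ hρ (by linarith)
  set θ : ℝ := min (1 / 2) (ε / (10 * C)) with hθdef
  have hθ : 0 < θ := by rw [hθdef]; positivity
  have hθ2 : θ ≤ 1 / 2 := min_le_left _ _
  have hθC : C * θ ≤ ε / 10 := by
    have : θ ≤ ε / (10 * C) := min_le_right _ _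
    rw [le_div_iff₀ (by positivity)] at this
    linarith
  obtain ⟨b1, m1, hb1, hm1, hright⟩ := rightE H hθ
  obtain ⟨b2, m2, hb2, hm2, hlow⟩ := lowE H hl hθ
  obtain ⟨p, q, hp, hq, hcr⟩ := crudeE H
  obtain ⟨W, hW2, hcW⟩ := exists_W (c := θ) (p := p + q * 5) (q := q) hθ (by positivity) hq
  set b : ℝ := b1 + θ * (m1 * (W + 5)) with hb
  have hb0 : 0 ≤ b := by rw [hb]; positivity
  set K' : ℝ := 1 + (b + θ) + (b2 + θ * m2) with hK'
  have hK'0 : 1 ≤ K' := by rw [hK']; nlinarith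
  refine ⟨θ, W + 5, 3 / 2 * (C * K') + ε / 4, hθ, by linarith, by positivity, fun i T hsm => ?_⟩
  set Λ : ℝ := Real.log (X i T) with hΛdef
  have hΛ : 0 ≤ Λ := Real.log_nonneg (H.X1 i T)
  set a : ℝ := 3 * θ * Λ + K' with ha
  have ha1 : 1 ≤ a := by
    have : 0 ≤ 3 * θ * Λ := by positivity
    rw [ha]; linarith
  -- the bound to the right of the critical line
  have hbd : ∀ w : ℂ, 1 / 2 ≤ w.re → |w.im - T| ≤ 5 → ‖L i w‖ ≤ Real.exp a := by
    intro w hw1 hw2
    have hw3 := abs_le.1 hw2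
    rcases le_or_gt w.re (3 / 2) with hc | hc
    · have h := pl (H.diff i) (t := w.im) (Λ := Λ) (W := W) (c := θ) (B := p + q * 5 + q * W)
        (b := b) (δ := θ) (η := θ) hΛ (by linarith) hθ hb0 hθ.le hθ.le hcW
        (fun s hs1 hs2 => ?_) (fun s hs1 hs2 => ?_) (fun s hs1 hs2 => ?_) rfl hw1 hc
      · refine h.trans (Real.exp_le_exp.2 ?_)
        rw [ha, hK']
        have : 0 ≤ b2 + θ * m2 := by positivity
        linarith
      · have hs3 := abs_le.1 hs2
        refine (hcr i T s (W + 5) (by linarith) (by linarith) (by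
          rw [abs_le]; constructor <;> linarith)).trans (Real.exp_le_exp.2 (le_of_eq ?_))
        ring
      · have hs3 := abs_le.1 hs2
        refine (hright i T s (W + 5) (by linarith) (by
          rw [abs_le]; constructor <;> linarith)).trans (Real.exp_le_exp.2 (le_of_eq ?_))
        rw [hb]
        ring
      · have hs3 := abs_le.1 hs2
        have e : s = vp (1 / 2) s.im := by
          apply Complex.ext
          · rw [vp_re, hs1]
          · rw [vp_im]
        rw [e]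
        exact hsm s.im (by rw [abs_le]; constructor <;> linarith)
    · refine (hright i T w 5 (by linarith) hw2).trans (Real.exp_le_exp.2 ?_)
      rw [ha, hK', hb]
      have h1 : θ * (m1 * 5) ≤ θ * (m1 * (W + 5)) := by
        apply mul_le_mul_of_nonneg_left _ hθ.le
        exact mul_le_mul_of_nonneg_left (by linarith) hm1
      have h2 : 0 ≤ b2 + θ * m2 := by positivity
      have h3 : 0 ≤ θ * Λ := by positivity
      nlinarith
  have hlow3 : ∀ t : ℝ, |t - T| ≤ 1 → Real.exp (-a) ≤ ‖L i (vp 3 t)‖ := by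
    intro t ht
    refine le_trans ?_ (hlow i T (vp 3 t) 1 (by rw [vp_re]; linarith) (by rw [vp_im]; exact ht))
    refine Real.exp_le_exp.2 ?_
    rw [ha, hK']
    have h3 : 0 ≤ θ * Λ := by positivity
    nlinarith
  set c0 : ENNReal := ENNReal.ofReal (C0 * (Λ + 1)) with hc0
  have hmaj : ∀ σ ∈ Ioo (1 / 2 : ℝ) 2, fewest (L i) σ T 1 ≤ ENNReal.ofReal (C * a) +
      (Ioc (1 / 2 : ℝ) (1 / 2 + ρ)).indicator (fun _ => c0) σ := by
    intro σ hσ
    rcases le_or_gt σ (1 / 2 + ρ) with h1 | h1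
    · rw [indicator_of_mem (show σ ∈ Ioc (1 / 2 : ℝ) (1 / 2 + ρ) from ⟨hσ.1, h1⟩)]
      exact (hcrude i T σ hσ.1.le hσ.2.le).trans (le_add_left le_rfl)
    · refine le_trans ?_ (le_add_right le_rfl)
      exact hcount (L i) (H.diff i) σ T a ha1 hσ.1.le hσ.2.le
        (fun w hw1 hw2 => hbd w (by linarith) hw2) hlow3
  calc ∫⁻ σ in Ioo (1 / 2 : ℝ) 2, fewest (L i) σ T 1
      ≤ ∫⁻ σ in Ioo (1 / 2 : ℝ) 2, (ENNReal.ofReal (C * a) +
        (Ioc (1 / 2 : ℝ) (1 / 2 + ρ)).indicator (fun _ => c0) σ) :=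
        setLIntegral_mono' measurableSet_Ioo hmaj
    _ = ENNReal.ofReal (C * a) * ENNReal.ofReal (3 / 2) +
        ∫⁻ σ in Ioo (1 / 2 : ℝ) 2, (Ioc (1 / 2 : ℝ) (1 / 2 + ρ)).indicator (fun _ => c0) σ := by
        rw [lintegral_add_left measurable_const]
        congr 1
        rw [lintegral_const, Measure.restrict_apply MeasurableSet.univ, univ_inter,
          Real.volume_Ioo]
        norm_num
    _ ≤ ENNReal.ofReal (C * a) * ENNReal.ofReal (3 / 2) + c0 * ENNReal.ofReal ρ := by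
        refine add_le_add_right ?_ _
        calc ∫⁻ σ in Ioo (1 / 2 : ℝ) 2, (Ioc (1 / 2 : ℝ) (1 / 2 + ρ)).indicator (fun _ => c0) σ
            ≤ ∫⁻ σ, (Ioc (1 / 2 : ℝ) (1 / 2 + ρ)).indicator (fun _ => c0) σ :=
              setLIntegral_le_lintegral _ _
          _ = c0 * volume (Ioc (1 / 2 : ℝ) (1 / 2 + ρ)) :=
              lintegral_indicator_const measurableSet_Ioc _
          _ = c0 * ENNReal.ofReal ρ := by rw [Real.volume_Ioc, add_sub_cancel_left]
    _ = ENNReal.ofReal (C * a * (3 / 2) + C0 * (Λ + 1) * ρ) := by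
        rw [hc0, ← ENNReal.ofReal_mul (by positivity), ← ENNReal.ofReal_mul (by positivity),
          ← ENNReal.ofReal_add (by positivity) (by positivity)]
    _ ≤ _ := by
        refine ENNReal.ofReal_le_ofReal ?_
        have e1 : C * a * (3 / 2) = 9 / 2 * (C * θ) * Λ + 3 / 2 * (C * K') := by
          rw [ha]; ring
        have e2 : C0 * (Λ + 1) * ρ = (C0 * ρ) * Λ + C0 * ρ := by ring
        have e3 : (C0 * ρ) * Λ ≤ ε / 4 * Λ := mul_le_mul_of_nonneg_right hρC hΛ
        have e4 : 9 / 2 * (C * θ) * Λ ≤ 9 / 20 * ε * Λ := by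
          apply mul_le_mul_of_nonneg_right _ hΛ
          linarith
        have e5 : 0 ≤ ε * Λ := by positivity
        rw [e1, e2]
        linarith

end Pool.Agent.H779.LG
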