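import Mathlib
import Pool.Agent.H779.LG.Fam

/-!
# The law for twists
-/

open MeasureTheory Set Filter Topology Metric
open Pool.Agent.H779.LX (vp vp_re vp_im)
open W587.PL (Fam2)

namespace Pool.Agent.H779.LG

/-- the mean over `1/2 < σ < 2` of the number of points of the curve `t ↦ L(σ + it)`, `|t - T| ≤ r`,
on the line through the origin which is met least often -/
noncomputable def crossings (L : ℂ → ℂ) (T r : ℝ) : ENNReal :=
  ∫⁻ σ in Ioo (1 / 2 : ℝ) 2, fewest L σ T r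

lemma crossings_mono (f : ℂ → ℂ) {T r r' : ℝ} (h : r ≤ r') : crossings f T r ≤ crossings f T r' :=
  lintegral_mono fun σ => fewest_mono f σ (by rw [sub_self, abs_zero, zero_add]; exact h)

/-- large values near the centre force points on every line -/
def LargeForces {ι : Type} (L : ι → ℂ → ℂ) (N : ι → ℝ) : Prop :=
  ∀ κ : ℝ, 0 < κ → κ ≤ 1 / 2 → ∀ R : ℝ, ∃ K : ℝ, ∀ (i : ι) (T : ℝ), |T| ≤ R →
    N i ^ κ ≤ ‖L i (1 / 2 + T * Complex.I)‖ →
    ENNReal.ofReal (κ ^ 2 / 4 * Real.log (N i) - K) ≤ crossings (L i) T κ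

/-- points on every line force large values -/
def PointsForce {ι : Type} (L : ι → ℂ → ℂ) (N : ι → ℝ) : Prop :=
  ∀ ε : ℝ, 0 < ε → ∀ R : ℝ, ∃ η W K : ℝ, 0 < η ∧ ∀ (i : ι) (T : ℝ), |T| ≤ R →
    ENNReal.ofReal (ε * Real.log (N i) + K) < crossings (L i) T 1 →
    ∃ u : ℝ, |u - T| ≤ W ∧ N i ^ η < ‖L i (1 / 2 + u * Complex.I)‖

/-- few points for `|T| ≤ R` -/
def Few {ι : Type} (L : ι → ℂ → ℂ) (N : ι → ℝ) (R : ℝ) : Prop :=
  ∀ ε : ℝ, 0 < ε → ∃ K : ℝ, ∀ (i : ι) (T : ℝ), |T| ≤ R →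
    crossings (L i) T 1 ≤ ENNReal.ofReal (ε * Real.log (N i) + K)

/-- the Lindelöf bound for `|T| ≤ R` -/
def Lind {ι : Type} (L : ι → ℂ → ℂ) (N : ι → ℝ) (R : ℝ) : Prop :=
  ∀ β : ℝ, 0 < β → ∃ B : ℝ, ∀ (i : ι) (T : ℝ), |T| ≤ R →
    ‖L i (1 / 2 + T * Complex.I)‖ ≤ B * N i ^ β

lemma vp_half (T : ℝ) : (1 / 2 + T * Complex.I : ℂ) = vp (1 / 2) T := by
  unfold vp; push_cast; ring

section

variable {ι : Type} {L : ι → ℂ → ℂ} {X Q : ι → ℝ → ℝ} {N : ι → ℝ}

theorem largeForces (H : Fam2 L X Q) (hl : LowR L X) (hN : ∀ i, 1 ≤ N i)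
    (hX : ∀ R, ∃ K, ∀ i t, |t| ≤ R → Real.log (X i t) ≤ 2 * Real.log (N i) + K)
    (hQ : ∀ R, ∃ K, ∀ i t, |t| ≤ R → Real.log (Q i t) ≤ 2 * Real.log (N i) + K) :
    LargeForces L N := by
  intro κ hκ hκ1 R
  have hpi := Real.pi_pos
  have hpi3 := Real.pi_gt_three
  obtain ⟨K0, hK0, h⟩ := fam_low H hl (ε := κ / 36) (by positivity)
  obtain ⟨K1, hK1⟩ := hX R
  obtain ⟨K2, hK2⟩ := hQ R
  set K3 : ℝ := |K1| + |K2| + K0 + 3 / κ with hK3
  have hK30 : 0 ≤ K3 := by rw [hK3]; positivity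
  refine ⟨K3, fun i T hT hbig => ?_⟩
  have hlogN : 0 ≤ Real.log (N i) := Real.log_nonneg (hN i)
  by_cases htop : crossings (L i) T κ = ⊤
  · rw [htop]; exact le_top
  have hN0 : 0 < N i := by linarith [hN i]
  rw [vp_half] at hbig
  have h1 := Real.log_le_log (Real.rpow_pos_of_pos hN0 κ) hbig
  rw [Real.log_rpow hN0] at h1
  have h2 := h i T κ hκ (by linarith)
  have h3 : 2 * κ / (3 * Real.pi) * Real.log (Q i T) + κ / 36 * Real.log (X i T) + K0 + 3 / κ ≤
      κ / 2 * Real.log (N i) + K3 := by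
    have e1 := hK1 i T hT
    have e2 := hK2 i T hT
    have e3 : 2 * κ / (3 * Real.pi) ≤ 2 * κ / 9 := by
      apply div_le_div_of_nonneg_left (by positivity) (by norm_num)
      linarith
    have e4 : 0 ≤ Real.log (Q i T) := Real.log_nonneg (H.Q1 i T)
    have e5 : 2 * κ / (3 * Real.pi) * Real.log (Q i T) ≤ 2 * κ / 9 * (2 * Real.log (N i) + K2) :=
      mul_le_mul e3 e2 e4 (by positivity)
    have e6 : κ / 36 * Real.log (X i T) ≤ κ / 36 * (2 * Real.log (N i) + K1) :=
      mul_le_mul_of_nonneg_left e1 (by positivity)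
    have e7 : 2 * κ / 9 * K2 ≤ |K2| := by
      calc 2 * κ / 9 * K2 ≤ 2 * κ / 9 * |K2| :=
            mul_le_mul_of_nonneg_left (le_abs_self _) (by positivity)
        _ ≤ 1 * |K2| := mul_le_mul_of_nonneg_right (by linarith) (abs_nonneg _)
        _ = |K2| := one_mul _
    have e8 : κ / 36 * K1 ≤ |K1| := by
      calc κ / 36 * K1 ≤ κ / 36 * |K1| :=
            mul_le_mul_of_nonneg_left (le_abs_self _) (by positivity)
        _ ≤ 1 * |K1| := mul_le_mul_of_nonneg_right (by linarith) (abs_nonneg _)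
        _ = |K1| := one_mul _
    rw [hK3]
    have e9 : 2 * κ / 9 * (2 * Real.log (N i) + K2) + κ / 36 * (2 * Real.log (N i) + K1) =
        κ / 2 * Real.log (N i) + 2 * κ / 9 * K2 + κ / 36 * K1 := by ring
    linarith
  have h4 : ENNReal.ofReal (κ * Real.log (N i)) ≤ ENNReal.ofReal (2 / κ) * crossings (L i) T κ +
      ENNReal.ofReal (κ / 2 * Real.log (N i) + K3) :=
    (ENNReal.ofReal_le_ofReal h1).trans (h2.trans (add_le_add_right
      (ENNReal.ofReal_le_ofReal h3) _))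
  rw [← ENNReal.ofReal_toReal htop, ← ENNReal.ofReal_mul (by positivity),
    ← ENNReal.ofReal_add (by positivity) (by positivity),
    ENNReal.ofReal_le_ofReal_iff (by positivity)] at h4
  rw [← ENNReal.ofReal_toReal htop]
  refine ENNReal.ofReal_le_ofReal ?_
  set I := (crossings (L i) T κ).toReal
  have h5 : κ / 2 * (κ * Real.log (N i)) ≤ κ / 2 * (2 / κ * I + (κ / 2 * Real.log (N i) + K3)) :=
    mul_le_mul_of_nonneg_left h4 (by positivity)
  have h6 : κ / 2 * (2 / κ * I + (κ / 2 * Real.log (N i) + K3)) =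
      I + κ ^ 2 / 4 * Real.log (N i) + κ / 2 * K3 := by
    field_simp
    ring
  have h7 : κ / 2 * K3 ≤ K3 := by nlinarith
  rw [h6] at h5
  nlinarith

theorem pointsForce (H : Fam2 L X Q) (hl : LowR L X) (hN : ∀ i, 1 ≤ N i)
    (hXN : ∀ i t, N i ≤ X i t)
    (hX : ∀ R, ∃ K, ∀ i t, |t| ≤ R → Real.log (X i t) ≤ 2 * Real.log (N i) + K) :
    PointsForce L N := by
  intro ε hε R
  obtain ⟨η, W, K, hη, hW, hK, h⟩ := fam_few H hl (ε := ε / 2) (by positivity)
  obtain ⟨K1, hK1⟩ := hX R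
  refine ⟨η, W, ε / 2 * |K1| + K, hη, fun i T hT hlt => ?_⟩
  by_contra hcon
  push Not at hcon
  refine absurd ?_ (not_le.2 hlt)
  have hN0 : 0 < N i := by linarith [hN i]
  refine (h i T fun u hu => ?_).trans (ENNReal.ofReal_le_ofReal ?_)
  · have h1 := hcon u hu
    rw [vp_half] at h1
    refine h1.trans ?_
    rw [Real.rpow_def_of_pos hN0, mul_comm]
    exact Real.exp_le_exp.2 (mul_le_mul_of_nonneg_left (Real.log_le_log hN0 (hXN i T)) hη.le)
  · have e1 := hK1 i T hT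
    have e2 := le_abs_self K1
    nlinarith

theorem lind_of_few (H : Fam2 L X Q) (hl : LowR L X) (hN : ∀ i, 1 ≤ N i)
    (hX : ∀ R, ∃ K, ∀ i t, |t| ≤ R → Real.log (X i t) ≤ 2 * Real.log (N i) + K)
    (hQ : ∀ R, ∃ K, ∀ i t, |t| ≤ R → Real.log (Q i t) ≤ 2 * Real.log (N i) + K) {R : ℝ}
    (hF : Few L N R) : Lind L N R := by
  intro β hβ
  set κ : ℝ := min β (1 / 2) with hκdef
  have hκ : 0 < κ := by rw [hκdef]; positivity
  obtain ⟨K1, h1⟩ := largeForces H hl hN hX hQ κ hκ (min_le_right _ _) R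
  obtain ⟨K2, h2⟩ := hF (κ ^ 2 / 8) (by positivity)
  obtain ⟨p, q, hp, hq, hcr⟩ := crudeE H
  obtain ⟨K3, hK3⟩ := hX R
  set Y : ℝ := 8 * (|K1| + |K2| + 1) / κ ^ 2 with hY
  have hY0 : 0 ≤ Y := by rw [hY]; positivity
  set B : ℝ := Real.exp (p * (2 * Y + |K3| + 1)) with hB
  have hB1 : 1 ≤ B := Real.one_le_exp (by positivity)
  refine ⟨B, fun i T hT => ?_⟩
  have hlogN : 0 ≤ Real.log (N i) := Real.log_nonneg (hN i)
  have hN0 : 0 < N i := by linarith [hN i]
  have hNβ : 1 ≤ N i ^ β := Real.one_le_rpow (hN i) hβ.le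
  rcases lt_or_ge ‖L i (1 / 2 + T * Complex.I)‖ (N i ^ κ) with hc | hc
  · have h3 : N i ^ κ ≤ N i ^ β := Real.rpow_le_rpow_of_exponent_le (hN i) (min_le_left _ _)
    have h4 : 0 ≤ N i ^ β := by linarith
    calc ‖L i (1 / 2 + T * Complex.I)‖ ≤ 1 * N i ^ β := by rw [one_mul]; exact hc.le.trans h3
      _ ≤ B * N i ^ β := mul_le_mul_of_nonneg_right hB1 h4
  · have h3 := (h1 i T hT hc).trans ((crossings_mono (L i) (T := T) (r := κ) (r' := 1) (by
      have := min_le_right β (1 / 2)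
      linarith)).trans (h2 i T hT))
    have hsmall : Real.log (N i) ≤ Y := by
      by_contra hcon
      push Not at hcon
      have e1 : 8 * (|K1| + |K2| + 1) < Real.log (N i) * κ ^ 2 := by
        rwa [hY, div_lt_iff₀ (by positivity)] at hcon
      have e2 : ENNReal.ofReal (κ ^ 2 / 4 * Real.log (N i) - K1) ≤
          ENNReal.ofReal (κ ^ 2 / 8 * Real.log (N i) + |K2|) :=
        h3.trans (ENNReal.ofReal_le_ofReal (by linarith [le_abs_self K2]))
      rw [ENNReal.ofReal_le_ofReal_iff (by positivity)] at e2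
      have := le_abs_self K1
      nlinarith [abs_nonneg K1, abs_nonneg K2]
    have h4 := hcr i T (vp (1 / 2) T) 0 le_rfl (by rw [vp_re]; norm_num)
      (by rw [vp_im, sub_self, abs_zero])
    rw [vp_half]
    calc ‖L i (vp (1 / 2) T)‖ ≤ Real.exp ((p + q * 0) * (Real.log (X i T) + 1)) := h4
      _ ≤ B * 1 := by
          rw [mul_one, hB]
          refine Real.exp_le_exp.2 ?_
          rw [mul_zero, add_zero]
          refine mul_le_mul_of_nonneg_left ?_ hp
          have := hK3 i T hT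
          linarith [le_abs_self K3]
      _ ≤ B * N i ^ β := mul_le_mul_of_nonneg_left hNβ (by linarith)

theorem few_of_lind (H : Fam2 L X Q) (hl : LowR L X) (hN : ∀ i, 1 ≤ N i)
    (hXN : ∀ i t, N i ≤ X i t)
    (hX : ∀ R, ∃ K, ∀ i t, |t| ≤ R → Real.log (X i t) ≤ 2 * Real.log (N i) + K)
    (hF : ∀ R, Lind L N R) (R : ℝ) : Few L N R := by
  intro ε hε
  obtain ⟨η, W, K, hη, hK⟩ := pointsForce H hl hN hXN hX ε hε R
  obtain ⟨B, hB⟩ := hF (R + W) (η / 2) (by positivity)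
  obtain ⟨C, hC, hcr⟩ := fam_crude H hl
  obtain ⟨K3, hK3⟩ := hX R
  set Y : ℝ := 2 * Real.log (max B 1) / η with hY
  have hlB : 0 ≤ Real.log (max B 1) := Real.log_nonneg (le_max_right _ _)
  have hY0 : 0 ≤ Y := by rw [hY]; positivity
  refine ⟨max K (2 * (C * (2 * Y + |K3| + 1))), fun i T hT => ?_⟩
  have hlogN : 0 ≤ Real.log (N i) := Real.log_nonneg (hN i)
  have hN0 : 0 < N i := by linarith [hN i]
  rcases le_or_gt Y (Real.log (N i)) with hc | hc
  · by_contra hcon
    push Not at hcon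
    obtain ⟨u, hu, hbig⟩ := hK i T hT (lt_of_le_of_lt (ENNReal.ofReal_le_ofReal (by
      linarith [le_max_left K (2 * (C * (2 * Y + |K3| + 1)))])) hcon)
    have h1 := hB i u (by
      have h2 : |u| ≤ |u - T| + |T| := by
        have := abs_add_le (u - T) T
        rwa [sub_add_cancel] at this
      linarith)
    have h3 : B * N i ^ (η / 2) ≤ N i ^ η := by
      have e1 : B ≤ N i ^ (η / 2) := by
        have e2 : Real.log (max B 1) ≤ Real.log (N i) * (η / 2) := by
          rw [hY, div_le_iff₀ hη] at hc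
          linarith
        calc B ≤ max B 1 := le_max_left _ _
          _ = Real.exp (Real.log (max B 1)) := by
              rw [Real.exp_log (lt_of_lt_of_le one_pos (le_max_right _ _))]
          _ ≤ Real.exp (Real.log (N i) * (η / 2)) := Real.exp_le_exp.2 e2
          _ = N i ^ (η / 2) := by rw [Real.rpow_def_of_pos hN0]
      calc B * N i ^ (η / 2) ≤ N i ^ (η / 2) * N i ^ (η / 2) :=
            mul_le_mul_of_nonneg_right e1 (Real.rpow_nonneg hN0.le _)
        _ = N i ^ η := by rw [← Real.rpow_add hN0]; congr 1; ring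
    linarith
  · calc crossings (L i) T 1
        ≤ ∫⁻ _ in Ioo (1 / 2 : ℝ) 2, ENNReal.ofReal (C * (2 * Y + |K3| + 1)) := by
          refine setLIntegral_mono' measurableSet_Ioo fun σ hσ => ?_
          refine (hcr i T σ hσ.1.le hσ.2.le).trans (ENNReal.ofReal_le_ofReal ?_)
          refine mul_le_mul_of_nonneg_left ?_ hC.le
          have := hK3 i T hT
          linarith [le_abs_self K3]
      _ ≤ ENNReal.ofReal (2 * (C * (2 * Y + |K3| + 1))) := by
          rw [lintegral_const, Measure.restrict_apply MeasurableSet.univ, univ_inter,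
            Real.volume_Ioo, ← ENNReal.ofReal_mul (by positivity)]
          refine ENNReal.ofReal_le_ofReal ?_
          have : 0 ≤ C * (2 * Y + |K3| + 1) := by positivity
          nlinarith
      _ ≤ _ := by
          refine ENNReal.ofReal_le_ofReal ?_
          have := le_max_right K (2 * (C * (2 * Y + |K3| + 1)))
          have : 0 ≤ ε * Real.log (N i) := by positivity
          linarith

end

end Pool.Agent.H779.LG
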